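import Mathlib

set_option autoImplicit false

/-!
# A small stack language with big-step cost semantics, compiled to Mathlib's `FinTM2`
-/

namespace Pool.Agent.H80.Poly

open Turing

/-- States: stacks of bits indexed by the natural numbers. -/
abbrev Stt := ℕ → List Bool

/-- Programs. -/
inductive Prog : Type
  | skip : Prog
  | push (i : ℕ) (b : Bool) : Prog
  | pop (i : ℕ) : Prog
  | seq (p q : Prog) : Prog
  | ite (i : ℕ) (c : Option Bool → Bool) (p q : Prog) : Prog
  | loop (i : ℕ) (c : Option Bool → Bool) (p : Prog) : Prog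

/-- Big-step semantics with cost. -/
inductive Ex : Prog → Stt → Stt → ℕ → Prop
  | skip (S : Stt) : Ex Prog.skip S S 1
  | push (i : ℕ) (b : Bool) (S : Stt) : Ex (Prog.push i b) S (Function.update S i (b :: S i)) 1
  | pop (i : ℕ) (S : Stt) : Ex (Prog.pop i) S (Function.update S i (S i).tail) 1
  | seq {p q : Prog} {S S' S'' : Stt} {m n : ℕ} :
      Ex p S S' m → Ex q S' S'' n → Ex (Prog.seq p q) S S'' (m + n)
  | iteT {i : ℕ} {c : Option Bool → Bool} {p q : Prog} {S S' : Stt} {n : ℕ} :
      c (S i).head? = true → Ex p S S' n → Ex (Prog.ite i c p q) S S' (n + 1)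
  | iteF {i : ℕ} {c : Option Bool → Bool} {p q : Prog} {S S' : Stt} {n : ℕ} :
      c (S i).head? = false → Ex q S S' n → Ex (Prog.ite i c p q) S S' (n + 1)
  | loopF {i : ℕ} {c : Option Bool → Bool} {p : Prog} {S : Stt} :
      c (S i).head? = false → Ex (Prog.loop i c p) S S 1
  | loopT {i : ℕ} {c : Option Bool → Bool} {p : Prog} {S S' S'' : Stt} {m n : ℕ} :
      c (S i).head? = true → Ex p S S' m → Ex (Prog.loop i c p) S' S'' n →
      Ex (Prog.loop i c p) S S'' (m + n + 1)

/-- A strict bound on the stack indices used. -/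
def bnd : Prog → ℕ
  | .skip => 0
  | .push i _ => i + 1
  | .pop i => i + 1
  | .seq p q => max (bnd p) (bnd q)
  | .ite i _ p q => max (i + 1) (max (bnd p) (bnd q))
  | .loop i _ p => max (i + 1) (bnd p)

/-- replace the stacks of `T` below `m` by those of `S` -/
def mix (m : ℕ) (S T : Stt) : Stt := fun i => if i < m then S i else T i

theorem mix_of_lt {m i : ℕ} (S T : Stt) (h : i < m) : mix m S T i = S i := by
  simp [mix, h]

theorem mix_of_le {m i : ℕ} (S T : Stt) (h : m ≤ i) : mix m S T i = T i := by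
  simp [mix, Nat.not_lt.2 h]

theorem mix_update {m i : ℕ} (S T : Stt) (x : List Bool) (h : i < m) :
    mix m (Function.update S i x) T = Function.update (mix m S T) i x := by
  funext j
  by_cases hj : j = i
  · subst hj; simp [mix, h]
  · simp [mix, Function.update_of_ne hj]

/-- Frame property. -/
theorem Ex.frame {p : Prog} {S S' : Stt} {n : ℕ} (h : Ex p S S' n) (m : ℕ) (hm : bnd p ≤ m)
    (T : Stt) : Ex p (mix m S T) (mix m S' T) n := by
  induction h with
  | skip S => exact Ex.skip _
  | push i b S =>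
    have hi : i < m := hm
    rw [mix_update _ _ _ hi]
    have := Ex.push i b (mix m S T)
    rwa [mix_of_lt _ _ hi] at this
  | pop i S =>
    have hi : i < m := hm
    rw [mix_update _ _ _ hi]
    have := Ex.pop i (mix m S T)
    rwa [mix_of_lt _ _ hi] at this
  | seq _ _ ih1 ih2 =>
    simp only [bnd, max_le_iff] at hm
    exact Ex.seq (ih1 hm.1) (ih2 hm.2)
  | iteT hc _ ih =>
    simp only [bnd, max_le_iff] at hm
    exact Ex.iteT (by rw [mix_of_lt _ _ hm.1]; exact hc) (ih hm.2.1)
  | iteF hc _ ih =>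
    simp only [bnd, max_le_iff] at hm
    exact Ex.iteF (by rw [mix_of_lt _ _ hm.1]; exact hc) (ih hm.2.2)
  | loopF hc =>
    simp only [bnd, max_le_iff] at hm
    exact Ex.loopF (by rw [mix_of_lt _ _ hm.1]; exact hc)
  | loopT hc _ _ ih1 ih2 =>
    have hm' := hm
    simp only [bnd, max_le_iff] at hm
    exact Ex.loopT (by rw [mix_of_lt _ _ hm.1]; exact hc) (ih1 hm.2) (ih2 hm')

/-- monotonicity of the total size: each unit of cost pushes at most one symbol -/
theorem Ex.length_le {p : Prog} {S S' : Stt} {n : ℕ} (h : Ex p S S' n) (i : ℕ) :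
    (S' i).length ≤ (S i).length + n := by
  induction h with
  | skip S => omega
  | push j b S =>
    by_cases hj : i = j
    · subst hj; simp
    · simp [Function.update_of_ne hj]
  | pop j S =>
    by_cases hj : i = j
    · subst hj; simp; omega
    · simp [Function.update_of_ne hj]
  | seq _ _ ih1 ih2 => omega
  | iteT _ _ ih => omega
  | iteF _ _ ih => omega
  | loopF _ => omega
  | loopT _ _ _ ih1 ih2 => omega

/-! ### Compilation -/

/-- Labels of the compiled program. -/
inductive Lbl : Prog → Type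
  | skip : Lbl Prog.skip
  | push {i : ℕ} {b : Bool} : Lbl (Prog.push i b)
  | pop {i : ℕ} : Lbl (Prog.pop i)
  | seqL {p q : Prog} (l : Lbl p) : Lbl (Prog.seq p q)
  | seqR {p q : Prog} (l : Lbl q) : Lbl (Prog.seq p q)
  | iteH {i : ℕ} {c : Option Bool → Bool} {p q : Prog} : Lbl (Prog.ite i c p q)
  | iteL {i : ℕ} {c : Option Bool → Bool} {p q : Prog} (l : Lbl p) : Lbl (Prog.ite i c p q)
  | iteR {i : ℕ} {c : Option Bool → Bool} {p q : Prog} (l : Lbl q) : Lbl (Prog.ite i c p q)
  | loopH {i : ℕ} {c : Option Bool → Bool} {p : Prog} : Lbl (Prog.loop i c p)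
  | loopB {i : ℕ} {c : Option Bool → Bool} {p : Prog} (l : Lbl p) : Lbl (Prog.loop i c p)

/-- labels are finite -/
theorem lblFinite (p : Prog) : Finite (Lbl p) := by
  induction p with
  | skip =>
    apply Finite.of_surjective (fun _ : Unit => (Lbl.skip : Lbl Prog.skip))
    intro l; cases l; exact ⟨(), rfl⟩
  | push i b =>
    apply Finite.of_surjective (fun _ : Unit => (Lbl.push : Lbl (Prog.push i b)))
    intro l; cases l; exact ⟨(), rfl⟩
  | pop i =>
    apply Finite.of_surjective (fun _ : Unit => (Lbl.pop : Lbl (Prog.pop i)))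
    intro l; cases l; exact ⟨(), rfl⟩
  | seq p q ihp ihq =>
    apply Finite.of_surjective
      (fun l : Lbl p ⊕ Lbl q => Sum.elim (fun l => Lbl.seqL l) (fun l => Lbl.seqR l) l)
    intro l
    cases l with
    | seqL l => exact ⟨Sum.inl l, rfl⟩
    | seqR l => exact ⟨Sum.inr l, rfl⟩
  | ite i c p q ihp ihq =>
    apply Finite.of_surjective
      (fun l : Unit ⊕ (Lbl p ⊕ Lbl q) => (Sum.elim (fun _ => Lbl.iteH)
        (Sum.elim (fun l => Lbl.iteL l) (fun l => Lbl.iteR l)) l : Lbl (Prog.ite i c p q)))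
    intro l
    cases l with
    | iteH => exact ⟨Sum.inl (), rfl⟩
    | iteL l => exact ⟨Sum.inr (Sum.inl l), rfl⟩
    | iteR l => exact ⟨Sum.inr (Sum.inr l), rfl⟩
  | loop i c p ihp =>
    apply Finite.of_surjective
      (fun l : Unit ⊕ Lbl p => (Sum.elim (fun _ => Lbl.loopH)
        (fun l => Lbl.loopB l) l : Lbl (Prog.loop i c p)))
    intro l
    cases l with
    | loopH => exact ⟨Sum.inl (), rfl⟩
    | loopB l => exact ⟨Sum.inr l, rfl⟩

/-- entry label -/
def entry : (p : Prog) → Lbl p
  | .skip => Lbl.skip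
  | .push _ _ => Lbl.push
  | .pop _ => Lbl.pop
  | .seq p _ => Lbl.seqL (entry p)
  | .ite _ _ _ _ => Lbl.iteH
  | .loop _ _ _ => Lbl.loopH

/-- `i` as an element of `Fin n` -/
def fi (n : ℕ) [NeZero n] (i : ℕ) : Fin n := ⟨i % n, Nat.mod_lt _ (Nat.pos_of_neZero n)⟩

open TM2.Stmt in
/-- compiled code -/
def code (n : ℕ) [NeZero n] {Λ : Type} : {p : Prog} → (l : Lbl p) → (Lbl p → Λ) → Λ →
    TM2.Stmt (fun _ : Fin n => Bool) Λ (Option Bool)
  | _, Lbl.skip, _, e => goto (fun _ => e)
  | _, @Lbl.push i b, _, e => push (fi n i) (fun _ => b) (goto (fun _ => e))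
  | _, @Lbl.pop i, _, e => pop (fi n i) (fun s _ => s) (goto (fun _ => e))
  | _, @Lbl.seqL _ q l, ι, _ => code n l (fun l => ι (Lbl.seqL l)) (ι (Lbl.seqR (entry q)))
  | _, Lbl.seqR l, ι, e => code n l (fun l => ι (Lbl.seqR l)) e
  | _, @Lbl.iteH i c p q, ι, _ => peek (fi n i) (fun _ x => x)
      (branch (fun s => c s) (goto (fun _ => ι (Lbl.iteL (entry p))))
        (goto (fun _ => ι (Lbl.iteR (entry q)))))
  | _, Lbl.iteL l, ι, e => code n l (fun l => ι (Lbl.iteL l)) e
  | _, Lbl.iteR l, ι, e => code n l (fun l => ι (Lbl.iteR l)) e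
  | _, @Lbl.loopH i c p, ι, e => peek (fi n i) (fun _ x => x)
      (branch (fun s => c s) (goto (fun _ => ι (Lbl.loopB (entry p)))) (goto (fun _ => e)))
  | _, Lbl.loopB l, ι, _ => code n l (fun l => ι (Lbl.loopB l)) (ι Lbl.loopH)

/-- stacks of the machine -/
def toStk (n : ℕ) (S : Stt) : ∀ _ : Fin n, List Bool := fun k => S k.val

theorem toStk_fi {n : ℕ} [NeZero n] (S : Stt) {i : ℕ} (h : i < n) :
    toStk n S (fi n i) = S i := by
  simp [toStk, fi, Nat.mod_eq_of_lt h]

theorem toStk_update {n : ℕ} [NeZero n] (S : Stt) {i : ℕ} (h : i < n) (x : List Bool) :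
    Function.update (toStk n S) (fi n i) x = toStk n (Function.update S i x) := by
  funext k
  by_cases hk : k = fi n i
  · subst hk
    have : (fi n i).val = i := by simp [fi, Nat.mod_eq_of_lt h]
    rw [Function.update_self]
    unfold toStk
    rw [this, Function.update_self]
  · have h2 : k.val ≠ i := by
      intro hki
      apply hk
      apply Fin.ext
      simp [fi, Nat.mod_eq_of_lt h, hki]
    rw [Function.update_of_ne hk]
    unfold toStk
    rw [Function.update_of_ne h2]

/-- `Rch M n a b`: `n` steps of the machine `M` lead from `a` to `b` -/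
def Rch {n : ℕ} {Λ : Type} (M : Λ → TM2.Stmt (fun _ : Fin n => Bool) Λ (Option Bool)) (t : ℕ)
    (a b : TM2.Cfg (fun _ : Fin n => Bool) Λ (Option Bool)) : Prop :=
  (flip bind (TM2.step M))^[t] (some a) = some b

theorem Rch.trans {n : ℕ} {Λ : Type} {M : Λ → TM2.Stmt (fun _ : Fin n => Bool) Λ (Option Bool)}
    {s t : ℕ} {a b c : TM2.Cfg (fun _ : Fin n => Bool) Λ (Option Bool)} (h1 : Rch M s a b)
    (h2 : Rch M t b c) : Rch M (s + t) a c := by
  unfold Rch at *
  rw [add_comm, Function.iterate_add_apply, h1, h2]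

theorem Rch.one {n : ℕ} {Λ : Type} {M : Λ → TM2.Stmt (fun _ : Fin n => Bool) Λ (Option Bool)}
    {a b : TM2.Cfg (fun _ : Fin n => Bool) Λ (Option Bool)} (h : TM2.step M a = some b) :
    Rch M 1 a b := h

theorem Rch.cons {n : ℕ} {Λ : Type} {M : Λ → TM2.Stmt (fun _ : Fin n => Bool) Λ (Option Bool)}
    {t : ℕ} {a b c : TM2.Cfg (fun _ : Fin n => Bool) Λ (Option Bool)}
    (h1 : TM2.step M a = some b) (h2 : Rch M t b c) : Rch M (t + 1) a c := by
  rw [add_comm]
  exact (Rch.one h1).trans h2

/-- Simulation of a program by its compiled code. -/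
theorem sim {n : ℕ} [NeZero n] {p : Prog} {S S' : Stt} {t : ℕ} (h : Ex p S S' t) (hn : bnd p ≤ n)
    {Λ : Type} (M : Λ → TM2.Stmt (fun _ : Fin n => Bool) Λ (Option Bool)) (ι : Lbl p → Λ) (e : Λ)
    (hM : ∀ l, M (ι l) = code n l ι e) (v : Option Bool) :
    ∃ v', Rch M t ⟨some (ι (entry p)), v, toStk n S⟩ ⟨some e, v', toStk n S'⟩ := by
  induction h generalizing e v with
  | skip S =>
    refine ⟨v, Rch.one ?_⟩
    simp [TM2.step, hM, entry, code, TM2.stepAux]
  | push i b S =>
    have hi : i < n := hn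
    refine ⟨v, Rch.one ?_⟩
    simp [TM2.step, hM, entry, code, TM2.stepAux, toStk_fi S hi, toStk_update S hi]
  | pop i S =>
    have hi : i < n := hn
    refine ⟨v, Rch.one ?_⟩
    simp [TM2.step, hM, entry, code, TM2.stepAux, toStk_fi S hi, toStk_update S hi]
  | seq h1 h2 ih1 ih2 =>
    simp only [bnd, max_le_iff] at hn
    obtain ⟨v1, hv1⟩ := ih1 hn.1 (fun l => ι (Lbl.seqL l)) (ι (Lbl.seqR (entry _)))
      (fun l => by rw [hM]; rfl) v
    obtain ⟨v2, hv2⟩ := ih2 hn.2 (fun l => ι (Lbl.seqR l)) e (fun l => by rw [hM]; rfl) v1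
    exact ⟨v2, hv1.trans hv2⟩
  | @iteT i c p q S S' n' hc h1 ih =>
    simp only [bnd, max_le_iff] at hn
    have hi : i < n := hn.1
    obtain ⟨v1, hv1⟩ := ih hn.2.1 (fun l => ι (Lbl.iteL l)) e (fun l => by rw [hM]; rfl)
      (S i).head?
    refine ⟨v1, Rch.cons ?_ hv1⟩
    simp [TM2.step, hM, code, entry, TM2.stepAux, toStk_fi S hi, hc]
  | @iteF i c p q S S' n' hc h1 ih =>
    simp only [bnd, max_le_iff] at hn
    have hi : i < n := hn.1
    obtain ⟨v1, hv1⟩ := ih hn.2.2 (fun l => ι (Lbl.iteR l)) e (fun l => by rw [hM]; rfl)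
      (S i).head?
    refine ⟨v1, Rch.cons ?_ hv1⟩
    simp [TM2.step, hM, code, entry, TM2.stepAux, toStk_fi S hi, hc]
  | @loopF i c p S hc =>
    simp only [bnd, max_le_iff] at hn
    have hi : i < n := hn.1
    refine ⟨(S i).head?, Rch.one ?_⟩
    simp [TM2.step, hM, code, entry, TM2.stepAux, toStk_fi S hi, hc]
  | @loopT i c p S S' S'' m n' hc h1 h2 ih1 ih2 =>
    have hn' := hn
    simp only [bnd, max_le_iff] at hn
    have hi : i < n := hn.1
    obtain ⟨v1, hv1⟩ := ih1 hn.2 (fun l => ι (Lbl.loopB l)) (ι Lbl.loopH)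
      (fun l => by rw [hM]; rfl) (S i).head?
    obtain ⟨v2, hv2⟩ := ih2 hn' ι e hM v1
    refine ⟨v2, Rch.cons ?_ (hv1.trans hv2)⟩
    simp [TM2.step, hM, code, entry, TM2.stepAux, toStk_fi S hi, hc]

open TM2.Stmt in
/-- The program of the machine. -/
def mach (p : Prog) : Option (Lbl p) → TM2.Stmt (fun _ : Fin (bnd p + 1) => Bool)
    (Option (Lbl p)) (Option Bool)
  | none => load (fun _ => none) halt
  | some l => code (bnd p + 1) l some none

/-- The machine of a program: input and output on stack `0`. -/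
noncomputable def machine (p : Prog) : FinTM2 where
  K := Fin (bnd p + 1)
  k₀ := 0
  k₁ := 0
  Γ := fun _ => Bool
  Λ := Option (Lbl p)
  main := some (entry p)
  ΛFin := letI := lblFinite p; Fintype.ofFinite _
  σ := Option Bool
  initialState := none
  Γk₀Fin := inferInstanceAs (Fintype Bool)
  m := mach p

/-- initial/final state with `x` on stack `0` -/
def ini (x : List Bool) : Stt := fun i => if i = 0 then x else []

theorem machine_outputs {p : Prog} {x y : List Bool} {t : ℕ} (h : Ex p (ini x) (ini y) t) :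
    Rch (mach p) (t + 1) ⟨some (some (entry p)), none, toStk (bnd p + 1) (ini x)⟩
      ⟨none, none, toStk (bnd p + 1) (ini y)⟩ := by
  obtain ⟨v, hv⟩ := sim h (Nat.le_succ _) (mach p) some none (fun l => rfl) none
  refine hv.trans (Rch.one ?_)
  simp [TM2.step, mach, TM2.stepAux]

theorem stk_eq (n : ℕ) (x : List Bool) (k : Fin (n + 1)) :
    (@dite (List Bool) (k = 0) (instDecidableEqFin (n + 1) k 0) (fun _ => x) fun _ => []) =
      toStk (n + 1) (ini x) k := by
  by_cases hk : k = (0 : Fin (n + 1))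
  · subst hk
    simp [toStk, ini]
  · have : k.val ≠ 0 := fun h => hk (Fin.ext h)
    rw [dif_neg hk]
    simp [toStk, ini, this]

/-- A program that computes `f` with polynomial cost yields a polynomial-time machine. -/
theorem Prog.tm2 {α β : Type} (ea : α → List Bool) (eb : β → List Bool) (f : α → β) (p : Prog)
    (t : Polynomial ℕ)
    (h : ∀ a, ∃ n ≤ t.eval (ea a).length, Ex p (ini (ea a)) (ini (eb (f a))) n) :
    Nonempty (TM2ComputableInPolyTime ea eb f) := by
  choose n hn hr using h
  refine ⟨{ tm := machine p, inputAlphabet := Equiv.refl _, outputAlphabet := Equiv.refl _,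
            time := t + 1, outputsFun := ?_ }⟩
  intro a
  refine { steps := n a + 1, evals_in_steps := ?_, steps_le_m := ?_ }
  · have h3 := machine_outputs (hr a)
    have h1 : initList (machine p)
        (List.map (Equiv.refl ((machine p).Γ (machine p).k₀)).invFun (ea a)) =
        ⟨some (some (entry p)), none, toStk (bnd p + 1) (ini (ea a))⟩ := by
      have : List.map (Equiv.refl ((machine p).Γ (machine p).k₀)).invFun (ea a) = ea a :=
        List.map_id _
      rw [this]
      unfold initList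
      congr 1
      funext k
      exact stk_eq (bnd p) (ea a) k
    have h2 : haltList (machine p)
        (List.map (Equiv.refl ((machine p).Γ (machine p).k₁)).invFun (eb (f a))) =
        ⟨none, none, toStk (bnd p + 1) (ini (eb (f a)))⟩ := by
      have : List.map (Equiv.refl ((machine p).Γ (machine p).k₁)).invFun (eb (f a)) = eb (f a) :=
        List.map_id _
      rw [this]
      unfold haltList
      congr 1
      funext k
      exact stk_eq (bnd p) (eb (f a)) k
    refine (congrArg (fun z => (flip bind (machine p).step)^[n a + 1] (some z)) h1).trans ?_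
    refine Eq.trans ?_ (congrArg some h2.symm)
    exact h3
  · simp only [Polynomial.eval_add, Polynomial.eval_one]
    exact Nat.add_le_add_right (hn a) 1

end Pool.Agent.H80.Poly
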