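import Mathlib
import Pool.Agent.H80.Poly.Prog

set_option autoImplicit false

/-!
# Bit encodings, polynomial-time functions, first closure properties
-/

namespace Pool.Agent.H80.Poly

open Function

/-! ### polynomially bounded functions -/

theorem eval_mono (p : Polynomial ℕ) {x y : ℕ} (h : x ≤ y) : p.eval x ≤ p.eval y := by
  induction p using Polynomial.induction_on' with
  | add p q hp hq => simp only [Polynomial.eval_add]; exact Nat.add_le_add hp hq
  | monomial n a =>
    simp only [Polynomial.eval_monomial]
    exact Nat.mul_le_mul_left _ (Nat.pow_le_pow_left h n)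

/-- `b` is bounded by a polynomial -/
def PB (b : ℕ → ℕ) : Prop := ∃ p : Polynomial ℕ, ∀ n, b n ≤ p.eval n

theorem PB.of_le {b c : ℕ → ℕ} (h : PB c) (hbc : ∀ n, b n ≤ c n) : PB b := by
  obtain ⟨p, hp⟩ := h
  exact ⟨p, fun n => (hbc n).trans (hp n)⟩

theorem PB.const (c : ℕ) : PB (fun _ => c) := ⟨Polynomial.C c, fun n => by simp⟩

theorem PB.id : PB (fun n => n) := ⟨Polynomial.X, fun n => by simp⟩

theorem PB.eval (p : Polynomial ℕ) : PB (fun n => p.eval n) := ⟨p, fun _ => le_rfl⟩

theorem PB.add {b c : ℕ → ℕ} (hb : PB b) (hc : PB c) : PB (fun n => b n + c n) := by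
  obtain ⟨p, hp⟩ := hb
  obtain ⟨q, hq⟩ := hc
  exact ⟨p + q, fun n => by
    simp only [Polynomial.eval_add]; exact Nat.add_le_add (hp n) (hq n)⟩

theorem PB.mul {b c : ℕ → ℕ} (hb : PB b) (hc : PB c) : PB (fun n => b n * c n) := by
  obtain ⟨p, hp⟩ := hb
  obtain ⟨q, hq⟩ := hc
  exact ⟨p * q, fun n => by
    simp only [Polynomial.eval_mul]; exact Nat.mul_le_mul (hp n) (hq n)⟩

theorem PB.pow {b : ℕ → ℕ} (hb : PB b) (k : ℕ) : PB (fun n => b n ^ k) := by
  obtain ⟨p, hp⟩ := hb
  exact ⟨p ^ k, fun n => by
    simp only [Polynomial.eval_pow]; exact Nat.pow_le_pow_left (hp n) k⟩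

theorem PB.evalComp (p : Polynomial ℕ) {c : ℕ → ℕ} (hc : PB c) : PB (fun n => p.eval (c n)) := by
  obtain ⟨q, hq⟩ := hc
  exact ⟨p.comp q, fun n => by
    rw [Polynomial.eval_comp]; exact eval_mono p (hq n)⟩

/-! ### encodings -/

/-- Types with an encoding as bit strings. -/
class BEnc (α : Type) where
  /-- the encoding -/
  enc : α → List Bool
  /-- encodings are injective -/
  enc_inj : Function.Injective enc

export BEnc (enc)

/-- size of the encoding -/
abbrev size {α : Type} [BEnc α] (a : α) : ℕ := (enc a).length

/-- escape: precede each bit by `true` -/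
def esc (x : List Bool) : List Bool := x.flatMap (fun b => [true, b])

@[simp] theorem esc_nil : esc [] = [] := rfl
@[simp] theorem esc_cons (b : Bool) (x : List Bool) : esc (b :: x) = true :: b :: esc x := rfl
@[simp] theorem esc_append (x y : List Bool) : esc (x ++ y) = esc x ++ esc y := by
  simp [esc]
@[simp] theorem length_esc (x : List Bool) : (esc x).length = 2 * x.length := by
  induction x with
  | nil => rfl
  | cons b x ih => simp [ih]; omega

/-- pairing of bit strings -/
def pr (x y : List Bool) : List Bool := esc x ++ false :: y

@[simp] theorem length_pr (x y : List Bool) : (pr x y).length = 2 * x.length + 1 + y.length := by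
  simp [pr]; omega

theorem pr_inj {x y x' y' : List Bool} (h : pr x y = pr x' y') : x = x' ∧ y = y' := by
  unfold pr at h
  induction x generalizing x' with
  | nil =>
    cases x' with
    | nil => simpa using h
    | cons b x' => simp at h
  | cons a x ih =>
    cases x' with
    | nil => simp at h
    | cons b x' =>
      simp only [esc_cons, List.cons_append, List.cons.injEq, true_and] at h
      obtain ⟨h1, h2⟩ := ih h.2
      exact ⟨by rw [h.1, h1], h2⟩

/-- raw bit strings -/
def Str : Type := List Bool

instance : BEnc Str := ⟨fun x => x, fun _ _ h => h⟩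

instance : BEnc Unit := ⟨fun _ => [], fun _ _ _ => rfl⟩

instance : BEnc Bool := ⟨fun b => [b], fun _ _ h => by simpa using h⟩

theorem encodeNat_injective : Function.Injective Computability.encodeNat :=
  fun m n h => by
    rw [← Computability.decode_encodeNat m, h, Computability.decode_encodeNat]

/-- natural numbers in binary, least significant bit first -/
instance : BEnc ℕ := ⟨Computability.encodeNat, encodeNat_injective⟩

instance {α β : Type} [BEnc α] [BEnc β] : BEnc (α × β) :=
  ⟨fun x => pr (enc x.1) (enc x.2), fun x y h => by
    obtain ⟨h1, h2⟩ := pr_inj h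
    exact Prod.ext (BEnc.enc_inj h1) (BEnc.enc_inj h2)⟩

/-- encoding of lists -/
def encList {α : Type} [BEnc α] : List α → List Bool
  | [] => []
  | a :: l => pr (enc a) (encList l)

theorem pr_ne_nil (x y : List Bool) : pr x y ≠ [] := by
  unfold pr
  cases x <;> simp

instance {α : Type} [BEnc α] : BEnc (List α) :=
  ⟨encList, fun l => by
    induction l with
    | nil =>
      intro l' h
      cases l' with
      | nil => rfl
      | cons b l' => exact absurd h.symm (pr_ne_nil _ _)
    | cons a l ih =>
      intro l' h
      cases l' with
      | nil => exact absurd h (pr_ne_nil _ _)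
      | cons b l' =>
        obtain ⟨h1, h2⟩ := pr_inj h
        rw [BEnc.enc_inj h1, ih h2]⟩

/-- encoding of options -/
def encOption {α : Type} [BEnc α] : Option α → List Bool
  | none => []
  | some a => true :: enc a

instance {α : Type} [BEnc α] : BEnc (Option α) :=
  ⟨encOption, fun o o' h => by
    cases o <;> cases o'
    · rfl
    · simp [encOption] at h
    · simp [encOption] at h
    · simp only [encOption, List.cons.injEq, true_and] at h
      rw [BEnc.enc_inj h]⟩

/-- encoding of sums -/
def encSum {α β : Type} [BEnc α] [BEnc β] : α ⊕ β → List Bool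
  | Sum.inl a => false :: enc a
  | Sum.inr b => true :: enc b

instance {α β : Type} [BEnc α] [BEnc β] : BEnc (α ⊕ β) :=
  ⟨encSum, fun o o' h => by
    cases o <;> cases o'
    · simp only [encSum, List.cons.injEq, true_and] at h
      rw [BEnc.enc_inj h]
    · simp [encSum] at h
    · simp [encSum] at h
    · simp only [encSum, List.cons.injEq, true_and] at h
      rw [BEnc.enc_inj h]⟩

@[simp] theorem enc_prod {α β : Type} [BEnc α] [BEnc β] (x : α × β) :
    enc x = pr (enc x.1) (enc x.2) := rfl
@[simp] theorem enc_nil {α : Type} [BEnc α] : enc ([] : List α) = [] := rfl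
@[simp] theorem enc_cons {α : Type} [BEnc α] (a : α) (l : List α) :
    enc (a :: l) = pr (enc a) (enc l) := rfl
@[simp] theorem enc_none {α : Type} [BEnc α] : enc (none : Option α) = [] := rfl
@[simp] theorem enc_some {α : Type} [BEnc α] (a : α) : enc (some a) = true :: enc a := rfl
@[simp] theorem enc_inl {α β : Type} [BEnc α] [BEnc β] (a : α) :
    enc (Sum.inl a : α ⊕ β) = false :: enc a := rfl
@[simp] theorem enc_inr {α β : Type} [BEnc α] [BEnc β] (b : β) :
    enc (Sum.inr b : α ⊕ β) = true :: enc b := rfl
@[simp] theorem enc_bool (b : Bool) : enc b = [b] := rfl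
@[simp] theorem enc_unit (u : Unit) : enc u = [] := rfl
@[simp] theorem enc_str (x : Str) : enc x = x := rfl

/-! ### polynomial-time functions -/

/-- `f` is computable in polynomial time (by a stack program). -/
def PolyTime {α β : Type} [BEnc α] [BEnc β] (f : α → β) : Prop :=
  ∃ (p : Prog) (b : ℕ → ℕ), PB b ∧
    ∀ a, ∃ n ≤ b (enc a).length, Ex p (ini (enc a)) (ini (enc (f a))) n

/-- Polynomial time in the sense of Mathlib. -/
theorem PolyTime.tm2 {α β : Type} [BEnc α] [BEnc β] {f : α → β} (h : PolyTime f) :
    Nonempty (Turing.TM2ComputableInPolyTime (enc : α → List Bool) (enc : β → List Bool) f) := by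
  obtain ⟨p, b, ⟨t, ht⟩, h⟩ := h
  refine Prog.tm2 enc enc f p t (fun a => ?_)
  obtain ⟨n, hn, h⟩ := h a
  exact ⟨n, hn.trans (ht _), h⟩

theorem PolyTime.congr {α β : Type} [BEnc α] [BEnc β] {f g : α → β} (h : PolyTime f)
    (hfg : ∀ a, f a = g a) : PolyTime g := by
  have : f = g := funext hfg
  rwa [← this]

/-- polynomial size of the output -/
theorem PolyTime.size_le {α β : Type} [BEnc α] [BEnc β] {f : α → β} (h : PolyTime f) :
    ∃ b, PB b ∧ ∀ a, size (f a) ≤ b (size a) := by
  obtain ⟨p, b, hb, h⟩ := h
  refine ⟨fun n => n + b n, PB.id.add hb, fun a => ?_⟩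
  obtain ⟨n, hn, h⟩ := h a
  have := h.length_le 0
  simp only [ini, if_true] at this
  exact this.trans (Nat.add_le_add_left hn _)

/-- functions with the same encoding of input and output -/
theorem PolyTime.of_enc_eq {α β : Type} [BEnc α] [BEnc β] {f : α → β}
    (h : ∀ a, enc (f a) = enc a) : PolyTime f := by
  refine ⟨Prog.skip, fun _ => 1, PB.const 1, fun a => ⟨1, le_rfl, ?_⟩⟩
  rw [h a]
  exact Ex.skip _

theorem PolyTime.id {α : Type} [BEnc α] : PolyTime (fun a : α => a) :=
  PolyTime.of_enc_eq (fun _ => rfl)

/-- bound made monotone and polynomial -/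
theorem PolyTime.poly {α β : Type} [BEnc α] [BEnc β] {f : α → β} (h : PolyTime f) :
    ∃ (p : Prog) (t : Polynomial ℕ),
    ∀ a, ∃ n ≤ t.eval (enc a).length, Ex p (ini (enc a)) (ini (enc (f a))) n := by
  obtain ⟨p, b, ⟨t, ht⟩, h⟩ := h
  refine ⟨p, t, fun a => ?_⟩
  obtain ⟨n, hn, h⟩ := h a
  exact ⟨n, hn.trans (ht _), h⟩

theorem PolyTime.comp {α β γ : Type} [BEnc α] [BEnc β] [BEnc γ] {g : β → γ} {f : α → β}
    (hg : PolyTime g) (hf : PolyTime f) : PolyTime (fun a => g (f a)) := by
  obtain ⟨p, t, hp⟩ := hf.poly
  obtain ⟨q, u, hq⟩ := hg.poly
  refine ⟨Prog.seq p q, fun n => t.eval n + u.eval (n + t.eval n),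
    (PB.eval t).add (PB.evalComp u (PB.id.add (PB.eval t))), fun a => ?_⟩
  obtain ⟨n, hn, h1⟩ := hp a
  obtain ⟨m, hm, h2⟩ := hq (f a)
  refine ⟨n + m, Nat.add_le_add hn (hm.trans (eval_mono u ?_)), Ex.seq h1 h2⟩
  have := h1.length_le 0
  simp only [ini, if_true] at this
  omega

/-! ### program building blocks -/

/-- is the stack nonempty -/
def ne : Option Bool → Bool := fun o => o.isSome
/-- is the top `true` -/
def tt : Option Bool → Bool := fun o => o == some true

/-- move one symbol from `i` to `j` -/
def mv1 (i j : ℕ) : Prog :=
  Prog.ite i tt (Prog.seq (Prog.pop i) (Prog.push j true)) (Prog.seq (Prog.pop i) (Prog.push j false))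

theorem mv1_spec {i j : ℕ} (hij : i ≠ j) (T : Stt) (b : Bool) (x : List Bool) (h : T i = b :: x) :
    Ex (mv1 i j) T (update (update T i x) j (b :: T j)) 3 := by
  have h1 : Ex (Prog.pop i) T (update T i x) 1 := by
    have := Ex.pop i T
    rwa [h, List.tail_cons] at this
  have h2 : ∀ c, Ex (Prog.push j c) (update T i x) (update (update T i x) j (c :: T j)) 1 := by
    intro c
    have := Ex.push j c (update T i x)
    rwa [update_of_ne (Ne.symm hij)] at this
  cases b with
  | true => exact Ex.iteT (by rw [h]; rfl) (Ex.seq h1 (h2 true))
  | false => exact Ex.iteF (by rw [h]; rfl) (Ex.seq h1 (h2 false))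

/-- move stack `i` to stack `j`, reversing -/
def mv (i j : ℕ) : Prog := Prog.loop i ne (mv1 i j)

theorem mv_spec {i j : ℕ} (hij : i ≠ j) : ∀ (x : List Bool) (T : Stt), T i = x →
    Ex (mv i j) T (update (update T i []) j (x.reverse ++ T j)) (4 * x.length + 1) := by
  intro x
  induction x with
  | nil =>
    intro T h
    have : update (update T i []) j (([] : List Bool).reverse ++ T j) = T := by
      funext k
      by_cases hk : k = j
      · subst hk; simp
      · rw [update_of_ne hk]
        by_cases hk' : k = i
        · subst hk'; simp [h]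
        · rw [update_of_ne hk']
    rw [this]
    exact Ex.loopF (by rw [h]; rfl)
  | cons b x ih =>
    intro T h
    have h1 := mv1_spec hij T b x h
    have h2 := ih (update (update T i x) j (b :: T j)) (by
      rw [update_of_ne hij, update_self])
    have h3 := Ex.loopT (i := i) (c := ne) (by rw [h]; rfl) h1 h2
    have e1 : update (update (update (update T i x) j (b :: T j)) i []) j
        (x.reverse ++ (update (update T i x) j (b :: T j)) j) =
        update (update T i []) j ((b :: x).reverse ++ T j) := by
      rw [update_self]
      funext k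
      by_cases hk : k = j
      · subst hk; simp
      · rw [update_of_ne hk, update_of_ne hk]
        by_cases hk' : k = i
        · subst hk'; simp
        · rw [update_of_ne hk', update_of_ne hk', update_of_ne hk, update_of_ne hk']
    rw [e1] at h3
    have e2 : 3 + (4 * x.length + 1) + 1 = 4 * (b :: x).length + 1 := by
      simp only [List.length_cons]; ring
    rw [e2] at h3
    exact h3

/-- move stack `i` to stacks `j` and `k`, reversing -/
def mv2 (i j k : ℕ) : Prog := Prog.loop i ne
  (Prog.ite i tt (Prog.seq (Prog.pop i) (Prog.seq (Prog.push j true) (Prog.push k true)))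
    (Prog.seq (Prog.pop i) (Prog.seq (Prog.push j false) (Prog.push k false))))

theorem mv2_spec {i j k : ℕ} (hij : i ≠ j) (hik : i ≠ k) (hjk : j ≠ k) :
    ∀ (x : List Bool) (T : Stt), T i = x →
    Ex (mv2 i j k) T (update (update (update T i []) j (x.reverse ++ T j)) k (x.reverse ++ T k))
      (5 * x.length + 1) := by
  intro x
  induction x with
  | nil =>
    intro T h
    have : update (update (update T i []) j (([] : List Bool).reverse ++ T j)) k
        (([] : List Bool).reverse ++ T k) = T := by
      funext l
      by_cases hk : l = k
      · subst hk; simp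
      · rw [update_of_ne hk]
        by_cases hk' : l = j
        · subst hk'; simp
        · rw [update_of_ne hk']
          by_cases hk'' : l = i
          · subst hk''; simp [h]
          · rw [update_of_ne hk'']
    rw [this]
    exact Ex.loopF (by rw [h]; rfl)
  | cons b x ih =>
    intro T h
    have h1 : Ex (Prog.ite i tt
        (Prog.seq (Prog.pop i) (Prog.seq (Prog.push j true) (Prog.push k true)))
        (Prog.seq (Prog.pop i) (Prog.seq (Prog.push j false) (Prog.push k false)))) T
        (update (update (update T i x) j (b :: T j)) k (b :: T k)) 4 := by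
      have e1 : Ex (Prog.pop i) T (update T i x) 1 := by
        have := Ex.pop i T
        rwa [h, List.tail_cons] at this
      have e2 : ∀ c, Ex (Prog.push j c) (update T i x) (update (update T i x) j (c :: T j)) 1 := by
        intro c
        have := Ex.push j c (update T i x)
        rwa [update_of_ne (Ne.symm hij)] at this
      have e3 : ∀ c, Ex (Prog.push k c) (update (update T i x) j (c :: T j))
          (update (update (update T i x) j (c :: T j)) k (c :: T k)) 1 := by
        intro c
        have := Ex.push k c (update (update T i x) j (c :: T j))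
        rwa [update_of_ne (Ne.symm hjk), update_of_ne (Ne.symm hik)] at this
      cases b with
      | true => exact Ex.iteT (by rw [h]; rfl) (Ex.seq e1 (Ex.seq (e2 true) (e3 true)))
      | false => exact Ex.iteF (by rw [h]; rfl) (Ex.seq e1 (Ex.seq (e2 false) (e3 false)))
    have h2 := ih (update (update (update T i x) j (b :: T j)) k (b :: T k)) (by
      rw [update_of_ne hik, update_of_ne hij, update_self])
    have h3 := Ex.loopT (i := i) (c := ne) (by rw [h]; rfl) h1 h2
    have e1 : update (update (update (update (update (update T i x) j (b :: T j)) k (b :: T k)) i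
        []) j (x.reverse ++ (update (update (update T i x) j (b :: T j)) k (b :: T k)) j)) k
        (x.reverse ++ (update (update (update T i x) j (b :: T j)) k (b :: T k)) k) =
        update (update (update T i []) j ((b :: x).reverse ++ T j)) k ((b :: x).reverse ++ T k) := by
      rw [update_self, update_of_ne hjk, update_self]
      funext l
      by_cases hk : l = k
      · subst hk; simp
      · rw [update_of_ne hk, update_of_ne hk]
        by_cases hk' : l = j
        · subst hk'; simp
        · rw [update_of_ne hk', update_of_ne hk']
          by_cases hk'' : l = i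
          · subst hk''; simp
          · rw [update_of_ne hk'', update_of_ne hk'', update_of_ne hk, update_of_ne hk',
              update_of_ne hk'']
    rw [e1] at h3
    have e2 : 4 + (5 * x.length + 1) + 1 = 5 * (b :: x).length + 1 := by
      simp only [List.length_cons]; ring
    rw [e2] at h3
    exact h3

/-- move with escapes -/
def mvEsc (i j : ℕ) : Prog := Prog.loop i ne (Prog.seq (mv1 i j) (Prog.push j true))

theorem mvEsc_spec {i j : ℕ} (hij : i ≠ j) : ∀ (x : List Bool) (T : Stt), T i = x →
    Ex (mvEsc i j) T (update (update T i []) j (esc x.reverse ++ T j)) (5 * x.length + 1) := by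
  intro x
  induction x with
  | nil =>
    intro T h
    have : update (update T i []) j (esc ([] : List Bool).reverse ++ T j) = T := by
      funext k
      by_cases hk : k = j
      · subst hk; simp
      · rw [update_of_ne hk]
        by_cases hk' : k = i
        · subst hk'; simp [h]
        · rw [update_of_ne hk']
    rw [this]
    exact Ex.loopF (by rw [h]; rfl)
  | cons b x ih =>
    intro T h
    have h1 : Ex (Prog.seq (mv1 i j) (Prog.push j true)) T
        (update (update T i x) j (true :: b :: T j)) 4 := by
      have e1 := mv1_spec hij T b x h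
      have e2 := Ex.push j true (update (update T i x) j (b :: T j))
      rw [update_self, update_idem] at e2
      exact Ex.seq e1 e2
    have h2 := ih (update (update T i x) j (true :: b :: T j)) (by
      rw [update_of_ne hij, update_self])
    have h3 := Ex.loopT (i := i) (c := ne) (by rw [h]; rfl) h1 h2
    have e1 : update (update (update (update T i x) j (true :: b :: T j)) i []) j
        (esc x.reverse ++ (update (update T i x) j (true :: b :: T j)) j) =
        update (update T i []) j (esc (b :: x).reverse ++ T j) := by
      rw [update_self]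
      funext k
      by_cases hk : k = j
      · subst hk; simp
      · rw [update_of_ne hk, update_of_ne hk]
        by_cases hk' : k = i
        · subst hk'; simp
        · rw [update_of_ne hk', update_of_ne hk', update_of_ne hk, update_of_ne hk']
    rw [e1] at h3
    have e2 : 4 + (5 * x.length + 1) + 1 = 5 * (b :: x).length + 1 := by
      simp only [List.length_cons]; ring
    rw [e2] at h3
    exact h3

/-- unescape the first component of stack `i` onto `j` (reversed) -/
def unEsc (i j : ℕ) : Prog := Prog.loop i tt (Prog.seq (Prog.pop i) (mv1 i j))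

theorem unEsc_spec {i j : ℕ} (hij : i ≠ j) (y : List Bool) : ∀ (x : List Bool) (T : Stt),
    T i = pr x y →
    Ex (unEsc i j) T (update (update T i (false :: y)) j (x.reverse ++ T j)) (5 * x.length + 1) := by
  intro x
  induction x with
  | nil =>
    intro T h
    have : update (update T i (false :: y)) j (([] : List Bool).reverse ++ T j) = T := by
      funext k
      by_cases hk : k = j
      · subst hk; simp
      · rw [update_of_ne hk]
        by_cases hk' : k = i
        · subst hk'; simp [h, pr]
        · rw [update_of_ne hk']
    rw [this]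
    exact Ex.loopF (by rw [h]; rfl)
  | cons b x ih =>
    intro T h
    have h' : T i = true :: b :: pr x y := by rw [h]; rfl
    have h1 : Ex (Prog.seq (Prog.pop i) (mv1 i j)) T
        (update (update T i (pr x y)) j (b :: T j)) 4 := by
      have e1 : Ex (Prog.pop i) T (update T i (b :: pr x y)) 1 := by
        have := Ex.pop i T
        rwa [h', List.tail_cons] at this
      have e2 := mv1_spec hij (update T i (b :: pr x y)) b (pr x y) (by rw [update_self])
      rw [update_idem, update_of_ne (Ne.symm hij)] at e2
      exact Ex.seq e1 e2
    have h2 := ih (update (update T i (pr x y)) j (b :: T j)) (by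
      rw [update_of_ne hij, update_self])
    have h3 := Ex.loopT (i := i) (c := tt) (by rw [h']; rfl) h1 h2
    have e1 : update (update (update (update T i (pr x y)) j (b :: T j)) i (false :: y)) j
        (x.reverse ++ (update (update T i (pr x y)) j (b :: T j)) j) =
        update (update T i (false :: y)) j ((b :: x).reverse ++ T j) := by
      rw [update_self]
      funext k
      by_cases hk : k = j
      · subst hk; simp
      · rw [update_of_ne hk, update_of_ne hk]
        by_cases hk' : k = i
        · subst hk'; simp
        · rw [update_of_ne hk', update_of_ne hk', update_of_ne hk, update_of_ne hk']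
    rw [e1] at h3
    have e2 : 4 + (5 * x.length + 1) + 1 = 5 * (b :: x).length + 1 := by
      simp only [List.length_cons]; ring
    rw [e2] at h3
    exact h3

/-- empty a stack -/
def clr (i : ℕ) : Prog := Prog.loop i ne (Prog.pop i)

theorem clr_spec (i : ℕ) : ∀ (x : List Bool) (T : Stt), T i = x →
    Ex (clr i) T (update T i []) (2 * x.length + 1) := by
  intro x
  induction x with
  | nil =>
    intro T h
    have : update T i [] = T := by rw [← h, update_eq_self]
    rw [this]
    exact Ex.loopF (by rw [h]; rfl)
  | cons b x ih =>
    intro T h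
    have h1 : Ex (Prog.pop i) T (update T i x) 1 := by
      have := Ex.pop i T
      rwa [h, List.tail_cons] at this
    have h2 := ih (update T i x) (by rw [update_self])
    rw [update_idem] at h2
    have h3 := Ex.loopT (i := i) (c := ne) (by rw [h]; rfl) h1 h2
    have e2 : 1 + (2 * x.length + 1) + 1 = 2 * (b :: x).length + 1 := by
      simp only [List.length_cons]; ring
    rw [e2] at h3
    exact h3

/-- push a list of bits (the first element of the list ends on top) -/
def pushL (i : ℕ) : List Bool → Prog
  | [] => Prog.skip
  | b :: l => Prog.seq (pushL i l) (Prog.push i b)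

theorem pushL_spec (i : ℕ) : ∀ (x : List Bool) (T : Stt),
    Ex (pushL i x) T (update T i (x ++ T i)) (x.length + 1) := by
  intro x
  induction x with
  | nil => intro T; simp only [List.nil_append, update_eq_self]; exact Ex.skip _
  | cons b x ih =>
    intro T
    have h1 := ih T
    have h2 := Ex.push i b (update T i (x ++ T i))
    rw [update_self, update_idem] at h2
    have := Ex.seq h1 h2
    simpa [pushL] using this

/-- Running a program inside a larger state. -/
theorem Ex.call {p : Prog} {x y : List Bool} {n : ℕ} (h : Ex p (ini x) (ini y) n) (T : Stt)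
    (h0 : T 0 = x) (hT : ∀ i, 0 < i → i < bnd p → T i = []) : Ex p T (update T 0 y) n := by
  have := h.frame (max (bnd p) 1) (le_max_left _ _) T
  have e1 : mix (max (bnd p) 1) (ini x) T = T := by
    funext i
    unfold mix ini
    split_ifs with h1 h2
    · subst h2; exact h0.symm
    · exact (hT i (by omega) (by
        rcases lt_max_iff.1 h1 with h | h
        · exact h
        · omega)).symm
    · rfl
  have e2 : mix (max (bnd p) 1) (ini y) T = update T 0 y := by
    funext i
    unfold mix ini
    by_cases hi : i = 0
    · subst hi; simp
    · rw [update_of_ne hi]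
      split_ifs with h1
      · exact (hT i (by omega) (by
          rcases lt_max_iff.1 h1 with h | h
          · exact h
          · omega)).symm
      · rfl
  rwa [e1, e2] at this

/-- states with data on stack `0` and three high stacks -/
def hi (m : ℕ) (x a b c : List Bool) : Stt := fun i =>
  if i = 0 then x else if i = m then a else if i = m + 1 then b else if i = m + 2 then c else []

theorem hi_ini (m : ℕ) (x : List Bool) : hi m x [] [] [] = ini x := by
  funext i; simp [hi, ini]

theorem hi_0 (m : ℕ) (x a b c : List Bool) : hi m x a b c 0 = x := by simp [hi]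
theorem hi_m {m : ℕ} (hm : 0 < m) (x a b c : List Bool) : hi m x a b c m = a := by
  simp [hi, hm.ne']
theorem hi_m1 (m : ℕ) (x a b c : List Bool) : hi m x a b c (m + 1) = b := by simp [hi]
theorem hi_m2 (m : ℕ) (x a b c : List Bool) : hi m x a b c (m + 2) = c := by simp [hi]

theorem hi_u0 (m : ℕ) (x a b c z : List Bool) : update (hi m x a b c) 0 z = hi m z a b c := by
  funext i
  by_cases h : i = 0
  · subst h; simp [hi]
  · rw [update_of_ne h]; simp [hi, h]

theorem hi_um {m : ℕ} (hm : 0 < m) (x a b c z : List Bool) :
    update (hi m x a b c) m z = hi m x z b c := by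
  funext i
  by_cases h : i = m
  · subst h; simp [hi, hm.ne']
  · rw [update_of_ne h]; simp [hi, h]

theorem hi_um1 {m : ℕ} (x a b c z : List Bool) :
    update (hi m x a b c) (m + 1) z = hi m x a z c := by
  funext i
  by_cases h : i = m + 1
  · subst h; simp [hi]
  · rw [update_of_ne h]; simp [hi, h]

theorem hi_um2 {m : ℕ} (x a b c z : List Bool) :
    update (hi m x a b c) (m + 2) z = hi m x a b z := by
  funext i
  by_cases h : i = m + 2
  · subst h; simp [hi]
  · rw [update_of_ne h]; simp [hi, h]

theorem Ex.callHi {p : Prog} {x y : List Bool} {n : ℕ} (h : Ex p (ini x) (ini y) n) {m : ℕ}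
    (hm : bnd p ≤ m) (a b c : List Bool) : Ex p (hi m x a b c) (hi m y a b c) n := by
  have := h.call (hi m x a b c) (hi_0 _ _ _ _ _) (by
    intro i h1 h2
    unfold hi
    rw [if_neg (by omega), if_neg (by omega), if_neg (by omega), if_neg (by omega)])
  rwa [hi_u0] at this

end Pool.Agent.H80.Poly
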