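import Mathlib
import Pool.Agent.H80.Poly.Basic

set_option autoImplicit false

/-!
# Closure properties: pairing, projections, case distinctions, bounded iteration
-/

namespace Pool.Agent.H80.Poly

open Function

variable {α β γ δ σ τ : Type} [BEnc α] [BEnc β] [BEnc γ] [BEnc δ] [BEnc σ] [BEnc τ]

/-! ### pairing -/

theorem PolyTime.pair {f : α → β} {g : α → γ} (hf : PolyTime f) (hg : PolyTime g) :
    PolyTime (fun a => (f a, g a)) := by
  obtain ⟨p, t, hp⟩ := hf.poly
  obtain ⟨q, u, hq⟩ := hg.poly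
  set m := max (max (bnd p) (bnd q)) 1 with hm
  have hm0 : 0 < m := by omega
  have hpm : bnd p ≤ m := by omega
  have hqm : bnd q ≤ m := by omega
  refine ⟨Prog.seq (mv 0 m) (Prog.seq (mv2 m 0 (m + 1)) (Prog.seq p (Prog.seq (mv 0 m)
    (Prog.seq (mv (m + 1) (m + 2)) (Prog.seq (mv (m + 2) 0) (Prog.seq q
    (Prog.seq (Prog.push 0 false) (mvEsc m 0)))))))),
    fun n => (4 * n + 1) + ((5 * n + 1) + (t.eval n + ((4 * (n + t.eval n) + 1) +
      ((4 * n + 1) + ((4 * n + 1) + (u.eval n + (1 + (5 * (n + t.eval n) + 1)))))))),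
    ?_, fun a => ?_⟩
  · have ht := PB.eval t
    have hu := PB.eval u
    have h4 : PB (fun n => 4 * n + 1) := ((PB.const 4).mul PB.id).add (PB.const 1)
    have h5 : PB (fun n => 5 * n + 1) := ((PB.const 5).mul PB.id).add (PB.const 1)
    have h6 : PB (fun n => 4 * (n + t.eval n) + 1) :=
      ((PB.const 4).mul (PB.id.add ht)).add (PB.const 1)
    have h7 : PB (fun n => 5 * (n + t.eval n) + 1) :=
      ((PB.const 5).mul (PB.id.add ht)).add (PB.const 1)
    exact h4.add (h5.add (ht.add (h6.add (h4.add (h4.add (hu.add ((PB.const 1).add h7)))))))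
  · obtain ⟨n1, hn1, h1⟩ := hp a
    obtain ⟨n2, hn2, h2⟩ := hq a
    set x := enc a with hx
    set y := enc (f a) with hy
    set z := enc (g a) with hz
    have hylen : y.length ≤ x.length + t.eval x.length := by
      have := h1.length_le 0
      simp only [ini, if_true] at this
      omega
    -- the run
    have s1 : Ex (mv 0 m) (ini x) (hi m [] x.reverse [] []) (4 * x.length + 1) := by
      have := mv_spec (i := 0) (j := m) (by omega) x (hi m x [] [] []) (hi_0 _ _ _ _ _)
      rw [hi_m hm0, hi_u0, hi_um hm0, List.append_nil] at this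
      rwa [hi_ini] at this
    have s2 : Ex (mv2 m 0 (m + 1)) (hi m [] x.reverse [] []) (hi m x [] x [])
        (5 * x.length + 1) := by
      have := mv2_spec (i := m) (j := 0) (k := m + 1) (by omega) (by omega) (by omega) x.reverse
        (hi m [] x.reverse [] []) (hi_m hm0 _ _ _ _)
      rw [hi_0, hi_m1, hi_um hm0, hi_u0, hi_um1, List.reverse_reverse, List.append_nil,
        List.length_reverse] at this
      exact this
    have s3 : Ex p (hi m x [] x []) (hi m y [] x []) n1 := h1.callHi hpm _ _ _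
    have s4 : Ex (mv 0 m) (hi m y [] x []) (hi m [] y.reverse x []) (4 * y.length + 1) := by
      have := mv_spec (i := 0) (j := m) (by omega) y (hi m y [] x []) (hi_0 _ _ _ _ _)
      rwa [hi_m hm0, hi_u0, hi_um hm0, List.append_nil] at this
    have s5 : Ex (mv (m + 1) (m + 2)) (hi m [] y.reverse x []) (hi m [] y.reverse [] x.reverse)
        (4 * x.length + 1) := by
      have := mv_spec (i := m + 1) (j := m + 2) (by omega) x (hi m [] y.reverse x []) (hi_m1 _ _ _ _ _)
      rwa [hi_m2, hi_um1, hi_um2, List.append_nil] at this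
    have s6 : Ex (mv (m + 2) 0) (hi m [] y.reverse [] x.reverse) (hi m x y.reverse [] [])
        (4 * x.length + 1) := by
      have := mv_spec (i := m + 2) (j := 0) (by omega) x.reverse (hi m [] y.reverse [] x.reverse)
        (hi_m2 _ _ _ _ _)
      rwa [hi_0, hi_um2, hi_u0, List.reverse_reverse, List.append_nil, List.length_reverse] at this
    have s7 : Ex q (hi m x y.reverse [] []) (hi m z y.reverse [] []) n2 := h2.callHi hqm _ _ _
    have s8 : Ex (Prog.push 0 false) (hi m z y.reverse [] []) (hi m (false :: z) y.reverse [] [])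
        1 := by
      have := Ex.push 0 false (hi m z y.reverse [] [])
      rwa [hi_u0, hi_0] at this
    have s9 : Ex (mvEsc m 0) (hi m (false :: z) y.reverse [] []) (ini (pr y z))
        (5 * y.length + 1) := by
      have := mvEsc_spec (i := m) (j := 0) (by omega) y.reverse (hi m (false :: z) y.reverse [] [])
        (hi_m hm0 _ _ _ _)
      rw [hi_0, hi_um hm0, hi_u0, List.reverse_reverse, List.length_reverse] at this
      rwa [hi_ini] at this
    refine ⟨_, ?_, Ex.seq s1 (Ex.seq s2 (Ex.seq s3 (Ex.seq s4 (Ex.seq s5 (Ex.seq s6 (Ex.seq s7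
      (Ex.seq s8 s9)))))))⟩
    simp only
    omega

/-- first component of a pair of strings -/
def fstP : Prog := Prog.seq (unEsc 0 1) (Prog.seq (clr 0) (mv 1 0))

theorem fstP_spec (x y : List Bool) :
    Ex fstP (ini (pr x y)) (ini x) ((5 * x.length + 1) + ((2 * (false :: y).length + 1) +
      (4 * x.length + 1))) := by
  have s1 : Ex (unEsc 0 1) (ini (pr x y)) (hi 1 (false :: y) x.reverse [] []) (5 * x.length + 1) := by
    have := unEsc_spec (i := 0) (j := 1) (by omega) y x (hi 1 (pr x y) [] [] []) (hi_0 _ _ _ _ _)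
    rw [hi_u0, hi_m one_pos, hi_um one_pos, List.append_nil] at this
    rwa [hi_ini] at this
  have s2 : Ex (clr 0) (hi 1 (false :: y) x.reverse [] []) (hi 1 [] x.reverse [] [])
      (2 * (false :: y).length + 1) := by
    have := clr_spec 0 (false :: y) (hi 1 (false :: y) x.reverse [] []) (hi_0 _ _ _ _ _)
    rwa [hi_u0] at this
  have s3 : Ex (mv 1 0) (hi 1 [] x.reverse [] []) (ini x) (4 * x.length + 1) := by
    have := mv_spec (i := 1) (j := 0) (by omega) x.reverse (hi 1 [] x.reverse [] [])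
      (hi_m one_pos _ _ _ _)
    rw [hi_0, hi_um one_pos, hi_u0, List.reverse_reverse, List.append_nil,
      List.length_reverse] at this
    rwa [hi_ini] at this
  exact Ex.seq s1 (Ex.seq s2 s3)

/-- second component of a pair of strings -/
def sndP : Prog := Prog.seq (Prog.loop 0 tt (Prog.seq (Prog.pop 0) (Prog.pop 0))) (Prog.pop 0)

theorem pop_ini (b : Bool) (x : List Bool) : Ex (Prog.pop 0) (ini (b :: x)) (ini x) 1 := by
  have := Ex.pop 0 (hi 1 (b :: x) [] [] [])
  rw [hi_0, hi_u0, List.tail_cons] at this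
  rwa [hi_ini, hi_ini] at this

theorem push_ini (b : Bool) (x : List Bool) : Ex (Prog.push 0 b) (ini x) (ini (b :: x)) 1 := by
  have := Ex.push 0 b (hi 1 x [] [] [])
  rw [hi_0, hi_u0] at this
  rwa [hi_ini, hi_ini] at this

theorem clr_ini (x : List Bool) : Ex (clr 0) (ini x) (ini []) (2 * x.length + 1) := by
  have := clr_spec 0 x (hi 1 x [] [] []) (hi_0 _ _ _ _ _)
  rw [hi_u0] at this
  rwa [hi_ini, hi_ini] at this

theorem pushL_ini (y x : List Bool) : Ex (pushL 0 y) (ini x) (ini (y ++ x)) (y.length + 1) := by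
  have := pushL_spec 0 y (hi 1 x [] [] [])
  rw [hi_0, hi_u0] at this
  rwa [hi_ini, hi_ini] at this

theorem ini_0 (x : List Bool) : ini x 0 = x := by simp [ini]

theorem sndP_spec (x y : List Bool) : Ex sndP (ini (pr x y)) (ini y) ((3 * x.length + 1) + 1) := by
  have s1 : Ex (Prog.loop 0 tt (Prog.seq (Prog.pop 0) (Prog.pop 0))) (ini (pr x y))
      (ini (false :: y)) (3 * x.length + 1) := by
    induction x with
    | nil => exact Ex.loopF (by rw [ini_0]; rfl)
    | cons b x ih =>
      have h1 : Ex (Prog.seq (Prog.pop 0) (Prog.pop 0)) (ini (pr (b :: x) y)) (ini (pr x y)) 2 :=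
        Ex.seq (pop_ini true (b :: pr x y)) (pop_ini b (pr x y))
      have := Ex.loopT (i := 0) (c := tt) (by rw [ini_0]; rfl) h1 ih
      have e2 : 2 + (3 * x.length + 1) + 1 = 3 * (b :: x).length + 1 := by
        simp only [List.length_cons]; ring
      rwa [e2] at this
  exact Ex.seq s1 (pop_ini false y)

theorem PolyTime.fst' : PolyTime (fun x : α × β => x.1) := by
  refine ⟨fstP, fun n => 11 * n + 20, ((PB.const 11).mul PB.id).add (PB.const 20), fun a => ?_⟩
  refine ⟨_, ?_, fstP_spec (enc a.1) (enc a.2)⟩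
  simp only [enc_prod, length_pr, List.length_cons]
  omega

theorem PolyTime.snd' : PolyTime (fun x : α × β => x.2) := by
  refine ⟨sndP, fun n => 11 * n + 20, ((PB.const 11).mul PB.id).add (PB.const 20), fun a => ?_⟩
  refine ⟨_, ?_, sndP_spec (enc a.1) (enc a.2)⟩
  simp only [enc_prod, length_pr]
  omega

theorem PolyTime.fst {f : α → β × γ} (hf : PolyTime f) : PolyTime (fun a => (f a).1) :=
  PolyTime.comp PolyTime.fst' hf

theorem PolyTime.snd {f : α → β × γ} (hf : PolyTime f) : PolyTime (fun a => (f a).2) :=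
  PolyTime.comp PolyTime.snd' hf

theorem PolyTime.const (b : β) : PolyTime (fun _ : α => b) := by
  refine ⟨Prog.seq (clr 0) (pushL 0 (enc b)), fun n => (2 * n + 1) + ((enc b).length + 1),
    (((PB.const 2).mul PB.id).add (PB.const 1)).add (PB.const _), fun a => ⟨_, le_rfl, ?_⟩⟩
  have := Ex.seq (clr_ini (enc a)) (pushL_ini (enc b) [])
  rwa [List.append_nil] at this

/-! ### constructors -/

theorem PolyTime.someOf : PolyTime (fun a : α => some a) :=
  ⟨Prog.push 0 true, fun _ => 1, PB.const 1, fun a => ⟨1, le_rfl, push_ini true (enc a)⟩⟩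

theorem PolyTime.inl' : PolyTime (fun a : α => (Sum.inl a : α ⊕ β)) :=
  ⟨Prog.push 0 false, fun _ => 1, PB.const 1, fun a => ⟨1, le_rfl, push_ini false (enc a)⟩⟩

theorem PolyTime.inr' : PolyTime (fun b : β => (Sum.inr b : α ⊕ β)) :=
  ⟨Prog.push 0 true, fun _ => 1, PB.const 1, fun a => ⟨1, le_rfl, push_ini true (enc a)⟩⟩

theorem PolyTime.cons' : PolyTime (fun x : α × List α => x.1 :: x.2) :=
  PolyTime.of_enc_eq (fun _ => rfl)

/-- decomposition of lists -/
def uncons {α : Type} : List α → Option (α × List α)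
  | [] => none
  | a :: l => some (a, l)

theorem PolyTime.uncons' : PolyTime (uncons : List α → Option (α × List α)) := by
  refine ⟨Prog.ite 0 ne (Prog.push 0 true) Prog.skip, fun _ => 2, PB.const 2, fun a =>
    ⟨2, le_rfl, ?_⟩⟩
  cases a with
  | nil => exact Ex.iteF (by rw [ini_0]; rfl) (Ex.skip _)
  | cons a l =>
    refine Ex.iteT ?_ (push_ini true (pr (enc a) (enc l)))
    rw [ini_0]
    have := pr_ne_nil (enc a) (enc l)
    simp only [enc_cons]
    cases h : pr (enc a) (enc l) with
    | nil => exact absurd h this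
    | cons b x => rfl

/-! ### case distinctions -/

theorem PolyTime.boolCase {f g : γ → β} (hf : PolyTime f) (hg : PolyTime g) :
    PolyTime (fun x : Bool × γ => bif x.1 then f x.2 else g x.2) := by
  obtain ⟨p, t, hp⟩ := hf.poly
  obtain ⟨q, u, hq⟩ := hg.poly
  refine ⟨Prog.seq (Prog.pop 0) (Prog.ite 0 tt (Prog.seq (Prog.pop 0) (Prog.seq (Prog.pop 0) p))
    (Prog.seq (Prog.pop 0) (Prog.seq (Prog.pop 0) q))),
    fun n => (t.eval n + u.eval n) + 4, ((PB.eval t).add (PB.eval u)).add (PB.const 4), ?_⟩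
  rintro ⟨b, c⟩
  obtain ⟨n1, hn1, h1⟩ := hp c
  obtain ⟨n2, hn2, h2⟩ := hq c
  have s1 : Ex (Prog.pop 0) (ini (enc (b, c))) (ini (b :: false :: enc c)) 1 :=
    pop_ini true (b :: false :: enc c)
  have s2 : Ex (Prog.pop 0) (ini (b :: false :: enc c)) (ini (false :: enc c)) 1 := pop_ini b _
  have s3 : Ex (Prog.pop 0) (ini (false :: enc c)) (ini (enc c)) 1 := pop_ini false _
  have m1 := eval_mono t (x := (enc c).length) (y := (enc (b, c)).length) (by simp)
  have m2 := eval_mono u (x := (enc c).length) (y := (enc (b, c)).length) (by simp)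
  cases b with
  | true =>
    exact ⟨1 + ((1 + (1 + n1)) + 1), by simp only at m1 m2 ⊢; omega,
      Ex.seq s1 (Ex.iteT (by rw [ini_0]; rfl) (Ex.seq s2 (Ex.seq s3 h1)))⟩
  | false =>
    exact ⟨1 + ((1 + (1 + n2)) + 1), by simp only at m1 m2 ⊢; omega,
      Ex.seq s1 (Ex.iteF (by rw [ini_0]; rfl) (Ex.seq s2 (Ex.seq s3 h2)))⟩

theorem PolyTime.cond {c : α → Bool} {f g : α → β} (hc : PolyTime c) (hf : PolyTime f)
    (hg : PolyTime g) : PolyTime (fun a => bif c a then f a else g a) :=
  (PolyTime.boolCase hf hg).comp (hc.pair PolyTime.id)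

theorem PolyTime.ite {c : α → Prop} [DecidablePred c] {f g : α → β}
    (hc : PolyTime (fun a => decide (c a))) (hf : PolyTime f) (hg : PolyTime g) :
    PolyTime (fun a => if c a then f a else g a) :=
  (PolyTime.cond hc hf hg).congr (fun a => by by_cases h : c a <;> simp [h])

theorem PolyTime.optCase {f : γ → β} {g : α × γ → β} (hf : PolyTime f) (hg : PolyTime g) :
    PolyTime (fun x : Option α × γ => x.1.elim (f x.2) (fun a => g (a, x.2))) := by
  obtain ⟨p, t, hp⟩ := hf.poly
  obtain ⟨q, u, hq⟩ := hg.poly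
  refine ⟨Prog.ite 0 tt (Prog.seq (Prog.pop 0) (Prog.seq (Prog.pop 0) q))
    (Prog.seq (Prog.pop 0) p),
    fun n => (t.eval n + u.eval n) + 4, ((PB.eval t).add (PB.eval u)).add (PB.const 4), ?_⟩
  rintro ⟨o, c⟩
  cases o with
  | none =>
    obtain ⟨n1, hn1, h1⟩ := hp c
    have m1 := eval_mono t (x := (enc c).length) (y := (enc ((none : Option α), c)).length)
      (by simp)
    refine ⟨(1 + n1) + 1, by simp only at m1 ⊢; omega, ?_⟩
    exact Ex.iteF (by rw [ini_0]; rfl) (Ex.seq (pop_ini false (enc c)) h1)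
  | some a =>
    obtain ⟨n1, hn1, h1⟩ := hq (a, c)
    have m1 := eval_mono u (x := (enc (a, c)).length) (y := (enc (some a, c)).length)
      (by simp)
    refine ⟨(1 + (1 + n1)) + 1, by simp only at m1 ⊢; omega, ?_⟩
    exact Ex.iteT (by rw [ini_0]; rfl) (Ex.seq (pop_ini true (true :: enc (a, c)))
      (Ex.seq (pop_ini true (enc (a, c))) h1))

theorem PolyTime.sumCase {f : α × γ → δ} {g : β × γ → δ} (hf : PolyTime f) (hg : PolyTime g) :
    PolyTime (fun x : (α ⊕ β) × γ => Sum.elim (fun a => f (a, x.2)) (fun b => g (b, x.2)) x.1) := by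
  obtain ⟨p, t, hp⟩ := hf.poly
  obtain ⟨q, u, hq⟩ := hg.poly
  refine ⟨Prog.seq (Prog.pop 0) (Prog.ite 0 tt (Prog.seq (Prog.pop 0) q)
    (Prog.seq (Prog.pop 0) p)),
    fun n => (t.eval n + u.eval n) + 4, ((PB.eval t).add (PB.eval u)).add (PB.const 4), ?_⟩
  rintro ⟨s, c⟩
  cases s with
  | inl a =>
    obtain ⟨n1, hn1, h1⟩ := hp (a, c)
    have m1 := eval_mono t (x := (enc (a, c)).length)
      (y := (enc ((Sum.inl a : α ⊕ β), c)).length) (by simp)
    refine ⟨1 + ((1 + n1) + 1), by simp only at m1 ⊢; omega, ?_⟩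
    exact Ex.seq (pop_ini true (false :: enc (a, c)))
      (Ex.iteF (by rw [ini_0]; rfl) (Ex.seq (pop_ini false (enc (a, c))) h1))
  | inr b =>
    obtain ⟨n1, hn1, h1⟩ := hq (b, c)
    have m1 := eval_mono u (x := (enc (b, c)).length)
      (y := (enc ((Sum.inr b : α ⊕ β), c)).length) (by simp)
    refine ⟨1 + ((1 + n1) + 1), by simp only at m1 ⊢; omega, ?_⟩
    exact Ex.seq (pop_ini true (true :: enc (b, c)))
      (Ex.iteT (by rw [ini_0]; rfl) (Ex.seq (pop_ini true (enc (b, c))) h1))

/-! ### bounded iteration -/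

theorem iter_loop {p : Prog} {m : ℕ} (hpm : bnd p ≤ m) (hm0 : 0 < m) {h : σ → σ} {t : ℕ → ℕ}
    (hp : ∀ s, ∃ n ≤ t (enc s).length, Ex p (ini (enc s)) (ini (enc (h s))) n) (B : ℕ) :
    ∀ (x : List Bool) (s : σ), (∀ i ≤ x.length, t (enc (h^[i] s)).length ≤ B) →
    ∃ n ≤ x.length * (B + 2) + 1, Ex (Prog.loop m ne (Prog.seq (Prog.pop m) p))
      (hi m (enc s) x [] []) (hi m (enc (h^[x.length] s)) [] [] []) n := by
  intro x
  induction x with
  | nil =>
    intro s _
    exact ⟨1, by simp, Ex.loopF (by rw [hi_m hm0]; rfl)⟩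
  | cons b x ih =>
    intro s hs
    obtain ⟨n1, hn1, h1⟩ := hp s
    have hs0 := hs 0 (Nat.zero_le _)
    simp only [iterate_zero, id_eq] at hs0
    obtain ⟨n2, hn2, h2⟩ := ih (h s) (fun i hi => by
      have := hs (i + 1) (by simp only [List.length_cons]; omega)
      rwa [iterate_succ_apply] at this)
    have s1 : Ex (Prog.pop m) (hi m (enc s) (b :: x) [] []) (hi m (enc s) x [] []) 1 := by
      have := Ex.pop m (hi m (enc s) (b :: x) [] [])
      rwa [hi_m hm0, List.tail_cons, hi_um hm0] at this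
    have s2 := Ex.seq s1 (h1.callHi hpm x [] [])
    refine ⟨(1 + n1) + n2 + 1, ?_, ?_⟩
    · simp only [List.length_cons]
      have : (x.length + 1) * (B + 2) = x.length * (B + 2) + (B + 2) := by ring
      omega
    · rw [List.length_cons, iterate_succ_apply]
      exact Ex.loopT (by rw [hi_m hm0]; rfl) s2 h2

/-- **Bounded iteration.** The number of iterations is the length of the bit string `c a`;
the sizes of the iterates must be polynomially bounded in the size of `a`. -/
theorem PolyTime.iterate {c : α → Str} {f : α → σ} {h : σ → σ} (hc : PolyTime c)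
    (hf : PolyTime f) (hh : PolyTime h) (bd : ∃ b, PB b ∧ ∀ a, ∀ i ≤ (enc (c a)).length,
      size (h^[i] (f a)) ≤ b (size a)) :
    PolyTime (fun a => h^[(enc (c a)).length] (f a)) := by
  obtain ⟨b, hb, hbd⟩ := bd
  obtain ⟨p, t, hp⟩ := hh.poly
  obtain ⟨q, u, hq⟩ := (hc.pair hf).poly
  obtain ⟨bc, hbc, hbcs⟩ := hc.size_le
  set m := max (bnd p) 1 with hm
  have hm0 : 0 < m := by omega
  have hpm : bnd p ≤ m := by omega
  refine ⟨Prog.seq q (Prog.seq (unEsc 0 m) (Prog.seq (Prog.pop 0)
    (Prog.loop m ne (Prog.seq (Prog.pop m) p)))),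
    fun n => u.eval n + ((5 * bc n + 1) + (1 + (bc n * (t.eval (b n) + 2) + 1))), ?_, ?_⟩
  · exact (PB.eval u).add ((((PB.const 5).mul hbc).add (PB.const 1)).add
      ((PB.const 1).add ((hbc.mul ((PB.evalComp t hb).add (PB.const 2))).add (PB.const 1))))
  · intro a
    obtain ⟨n1, hn1, h1⟩ := hq a
    set x := enc (c a) with hx
    have hxl : x.length ≤ bc (enc a).length := hbcs a
    have s2 : Ex (unEsc 0 m) (ini (pr x (enc (f a)))) (hi m (false :: enc (f a)) x.reverse [] [])
        (5 * x.length + 1) := by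
      have := unEsc_spec (i := 0) (j := m) (by omega) (enc (f a)) x
        (hi m (pr x (enc (f a))) [] [] []) (hi_0 _ _ _ _ _)
      rw [hi_u0, hi_m hm0, hi_um hm0, List.append_nil] at this
      rwa [hi_ini] at this
    have s3 : Ex (Prog.pop 0) (hi m (false :: enc (f a)) x.reverse [] [])
        (hi m (enc (f a)) x.reverse [] []) 1 := by
      have := Ex.pop 0 (hi m (false :: enc (f a)) x.reverse [] [])
      rwa [hi_0, hi_u0, List.tail_cons] at this
    obtain ⟨n4, hn4, h4⟩ := iter_loop (h := h) (t := fun n => t.eval n) hpm hm0 hp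
      (t.eval (b (enc a).length)) x.reverse (f a) (by
      intro i hi
      rw [List.length_reverse] at hi
      exact eval_mono t (hbd a i hi))
    rw [List.length_reverse, hi_ini] at h4
    rw [List.length_reverse] at hn4
    refine ⟨_, ?_, Ex.seq h1 (Ex.seq s2 (Ex.seq s3 h4))⟩
    have h5 : x.length * (t.eval (b (enc a).length) + 2) ≤
        bc (enc a).length * (t.eval (b (enc a).length) + 2) := Nat.mul_le_mul_right _ hxl
    simp only
    omega

/-- The encoding itself, as a raw bit string. -/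
def toStr (a : α) : Str := enc a

theorem PolyTime.toStr' : PolyTime (toStr : α → Str) := PolyTime.of_enc_eq (fun _ => rfl)

end Pool.Agent.H80.Poly
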