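import Mathlib
import Pool.Agent.H80.Poly.Comb

set_option autoImplicit false
set_option linter.unusedSectionVars false

/-!
# Folds and list functions
-/

namespace Pool.Agent.H80.Poly

open Function

variable {α β γ δ σ τ : Type} [BEnc α] [BEnc β] [BEnc γ] [BEnc δ] [BEnc σ] [BEnc τ]

/-! ### sizes -/

theorem size_prod (x : α × β) : size x = 2 * size x.1 + 1 + size x.2 := by
  simp [size]

theorem size_pair (a : α) (b : β) : size (a, b) = 2 * size a + 1 + size b := by
  simp [size]

theorem size_nil : size ([] : List α) = 0 := by simp [size]

theorem size_cons (a : α) (l : List α) : size (a :: l) = 2 * size a + 1 + size l := by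
  simp [size]

theorem size_append (l l' : List α) : size (l ++ l') = size l + size l' := by
  induction l with
  | nil => simp [size_nil]
  | cons a l ih => rw [List.cons_append, size_cons, size_cons, ih]; omega

theorem size_reverse (l : List α) : size l.reverse = size l := by
  induction l with
  | nil => rfl
  | cons a l ih => rw [List.reverse_cons, size_append, size_cons, size_cons, size_nil, ih]; omega

theorem length_le_size (l : List α) : l.length ≤ size l := by
  induction l with
  | nil => simp
  | cons a l ih => rw [List.length_cons, size_cons]; omega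

theorem size_drop_le (l : List α) (i : ℕ) : size (l.drop i) ≤ size l := by
  conv_rhs => rw [← List.take_append_drop i l]
  rw [size_append]
  omega

theorem size_take_le (l : List α) (i : ℕ) : size (l.take i) ≤ size l := by
  conv_rhs => rw [← List.take_append_drop i l]
  rw [size_append]
  omega

theorem size_of_mem {x : α} {l : List α} (h : x ∈ l) : 2 * size x + 1 ≤ size l := by
  induction l with
  | nil => exact absurd h (List.not_mem_nil)
  | cons a l ih =>
    rw [size_cons]
    rcases List.mem_cons.1 h with rfl | h
    · omega
    · have := ih h; omega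

theorem size_none : size (none : Option α) = 0 := by simp [size]
theorem size_some (a : α) : size (some a) = size a + 1 := by simp [size]
theorem size_bool (b : Bool) : size b = 1 := by simp [size]
theorem size_unit (u : Unit) : size u = 0 := by simp [size]

theorem size_map_le {c : ℕ} (f : β → γ) (l : List β) (h : ∀ x ∈ l, size (f x) ≤ c) :
    size (l.map f) ≤ l.length * (2 * c + 1) := by
  induction l with
  | nil => simp [size_nil]
  | cons a l ih =>
    rw [List.map_cons, size_cons, List.length_cons]
    have h1 := h a List.mem_cons_self
    have h2 := ih (fun x hx => h x (List.mem_cons_of_mem _ hx))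
    have : (l.length + 1) * (2 * c + 1) = l.length * (2 * c + 1) + (2 * c + 1) := by ring
    omega

theorem size_list_le {c : ℕ} (l : List β) (h : ∀ x ∈ l, size x ≤ c) :
    size l ≤ l.length * (2 * c + 1) := by
  have := size_map_le (fun x => x) l h
  rwa [List.map_id'] at this

/-! ### folds -/

/-- one step of the fold machine -/
def foldStep (h : α × σ × β → σ) (z : List β × (α × σ)) : List β × (α × σ) :=
  (uncons z.1).elim z (fun y => (y.2, (z.2.1, h (z.2.1, z.2.2, y.1))))

theorem foldStep_iter (h : α × σ × β → σ) (a : α) : ∀ (i : ℕ) (l : List β) (s : σ),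
    (foldStep h)^[i] (l, (a, s)) =
      (l.drop i, (a, (l.take i).foldl (fun s x => h (a, s, x)) s)) := by
  intro i
  induction i with
  | zero => intro l s; simp
  | succ i ih =>
    intro l s
    rw [iterate_succ_apply]
    cases l with
    | nil =>
      have : foldStep h (([] : List β), (a, s)) = ([], (a, s)) := rfl
      rw [this, ih]
      simp
    | cons x l =>
      have : foldStep h ((x :: l), (a, s)) = (l, (a, h (a, s, x))) := rfl
      rw [this, ih]
      simp

theorem PolyTime.foldStep' {h : α × σ × β → σ} (hh : PolyTime h) : PolyTime (foldStep h) := by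
  have h1 : PolyTime (fun z : List β × (α × σ) => (uncons z.1, z)) :=
    (PolyTime.uncons'.comp PolyTime.fst').pair PolyTime.id
  have hw : PolyTime (fun w : (β × List β) × (List β × (α × σ)) => w) := PolyTime.id
  have h2 : PolyTime (fun w : (β × List β) × (List β × (α × σ)) =>
      ((w.1.2, (w.2.2.1, h (w.2.2.1, w.2.2.2, w.1.1))) : List β × (α × σ))) :=
    hw.fst.snd.pair (hw.snd.snd.fst.pair
      (hh.comp (hw.snd.snd.fst.pair (hw.snd.snd.snd.pair hw.fst.fst))))
  exact (PolyTime.optCase (PolyTime.id (α := List β × (α × σ))) h2).comp h1

/-- **Fold with context.** -/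
theorem PolyTime.foldl {l : α → List β} {f : α → σ} {h : α × σ × β → σ} (hl : PolyTime l)
    (hf : PolyTime f) (hh : PolyTime h)
    (bd : ∃ b, PB b ∧ ∀ a i, i ≤ (l a).length →
      size (((l a).take i).foldl (fun s x => h (a, s, x)) (f a)) ≤ b (size a)) :
    PolyTime (fun a => (l a).foldl (fun s x => h (a, s, x)) (f a)) := by
  obtain ⟨b, hb, hbd⟩ := bd
  obtain ⟨bl, hbl, hbls⟩ := hl.size_le
  have key := PolyTime.iterate (c := fun a => toStr (l a)) (f := fun a => (l a, (a, f a)))
    (h := foldStep h) (PolyTime.toStr'.comp hl) (hl.pair (PolyTime.id.pair hf))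
    (PolyTime.foldStep' hh)
    ⟨fun n => 2 * bl n + 1 + (2 * n + 1 + b n),
      (((PB.const 2).mul hbl).add (PB.const 1)).add
        ((((PB.const 2).mul PB.id).add (PB.const 1)).add hb), fun a i _ => by
      rw [foldStep_iter, size_prod, size_prod]
      simp only
      have h1 := size_drop_le (l a) i
      have h2 := hbls a
      have h3 : size (((l a).take i).foldl (fun s x => h (a, s, x)) (f a)) ≤ b (size a) := by
        rcases Nat.le_total i (l a).length with h' | h'
        · exact hbd a i h'
        · rw [List.take_of_length_le h']
          have := hbd a (l a).length le_rfl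
          rwa [List.take_length] at this
      simp only [size] at h1 h2 h3 ⊢
      omega⟩
  refine key.snd.snd.congr (fun a => ?_)
  have hlen : (l a).length ≤ (enc (toStr (l a))).length := length_le_size (l a)
  rw [foldStep_iter]
  simp only
  rw [List.take_of_length_le hlen]

theorem size_foldl_add {c : ℕ} (h : σ → β → σ) (l : List β)
    (hc : ∀ s, ∀ x ∈ l, size (h s x) ≤ size s + c) (s : σ) (i : ℕ) :
    size ((l.take i).foldl h s) ≤ size s + l.length * c := by
  induction l generalizing s i with
  | nil => simp
  | cons x l ih =>
    cases i with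
    | zero => simp
    | succ i =>
      rw [List.take_succ_cons, List.foldl_cons]
      have h1 := ih (fun s y hy => hc s y (List.mem_cons_of_mem _ hy)) (h s x) i
      have h2 := hc s x List.mem_cons_self
      rw [List.length_cons]
      have : (l.length + 1) * c = l.length * c + c := by ring
      omega

/-- Fold whose accumulator grows additively: each step adds at most `c (size a)`. -/
theorem PolyTime.foldl_add {l : α → List β} {f : α → σ} {h : α × σ × β → σ} (hl : PolyTime l)
    (hf : PolyTime f) (hh : PolyTime h)
    (bd : ∃ c, PB c ∧ ∀ a s, ∀ x ∈ l a, size (h (a, s, x)) ≤ size s + c (size a)) :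
    PolyTime (fun a => (l a).foldl (fun s x => h (a, s, x)) (f a)) := by
  obtain ⟨c, hc, hcd⟩ := bd
  obtain ⟨bl, hbl, hbls⟩ := hl.size_le
  obtain ⟨bf, hbf, hbfs⟩ := hf.size_le
  refine PolyTime.foldl hl hf hh ⟨fun n => bf n + bl n * c n, hbf.add (hbl.mul hc), ?_⟩
  intro a i _
  have h1 := size_foldl_add (fun s x => h (a, s, x)) (l a) (hcd a) (f a) i
  have h2 := hbls a
  have h3 := hbfs a
  have h4 := length_le_size (l a)
  have h5 : (l a).length * c (size a) ≤ bl (size a) * c (size a) :=
    Nat.mul_le_mul_right _ (h4.trans h2)
  exact h1.trans (Nat.add_le_add h3 h5)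

/-- Fold with an accumulator of a type all of whose reachable values are small: `I a s` is an
invariant implying that the size of `s` is at most `b (size a)`. -/
theorem PolyTime.foldl_inv {l : α → List β} {f : α → σ} {h : α × σ × β → σ} (hl : PolyTime l)
    (hf : PolyTime f) (hh : PolyTime h) (I : α → σ → Prop) (h0 : ∀ a, I a (f a))
    (hI : ∀ a s, ∀ x ∈ l a, I a s → I a (h (a, s, x)))
    (bd : ∃ b, PB b ∧ ∀ a s, I a s → size s ≤ b (size a)) :
    PolyTime (fun a => (l a).foldl (fun s x => h (a, s, x)) (f a)) := by
  obtain ⟨b, hb, hbd⟩ := bd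
  refine PolyTime.foldl hl hf hh ⟨b, hb, fun a i _ => hbd a _ ?_⟩
  have : ∀ (l' : List β) (s : σ), (∀ x ∈ l', x ∈ l a) → I a s →
      I a (l'.foldl (fun s x => h (a, s, x)) s) := by
    intro l'
    induction l' with
    | nil => intro s _ hs; exact hs
    | cons x l' ih =>
      intro s hl' hs
      exact ih _ (fun y hy => hl' y (List.mem_cons_of_mem _ hy))
        (hI a s x (hl' x List.mem_cons_self) hs)
  exact this _ _ (fun x hx => List.mem_of_mem_take hx) (h0 a)

/-! ### list functions -/

theorem PolyTime.cons {f : α → β} {g : α → List β} (hf : PolyTime f) (hg : PolyTime g) :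
    PolyTime (fun a => f a :: g a) :=
  PolyTime.cons'.comp (hf.pair hg)

theorem PolyTime.reverse {l : α → List β} (hl : PolyTime l) : PolyTime (fun a => (l a).reverse) := by
  have hw : PolyTime (fun w : α × List β × β => w) := PolyTime.id
  have h1 := PolyTime.foldl_add (σ := List β) (f := fun _ => []) (h := fun w => w.2.2 :: w.2.1) hl
    (PolyTime.const _) (hw.snd.snd.cons hw.snd.fst) (by
      obtain ⟨bl, hbl, hbls⟩ := hl.size_le
      refine ⟨fun n => 2 * bl n + 1, ((PB.const 2).mul hbl).add (PB.const 1), ?_⟩
      intro a s x hx
      rw [size_cons]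
      have h1 := size_of_mem hx
      have h2 := hbls a
      simp only [size] at *
      omega)
  refine h1.congr (fun a => ?_)
  simp only
  rw [List.foldl_flip_cons_eq_append', List.append_nil]

theorem PolyTime.append {f g : α → List β} (hf : PolyTime f) (hg : PolyTime g) :
    PolyTime (fun a => f a ++ g a) := by
  have hw : PolyTime (fun w : α × List β × β => w) := PolyTime.id
  have h1 := PolyTime.foldl_add (σ := List β) (f := g) (l := fun a => (f a).reverse)
    (h := fun w => w.2.2 :: w.2.1) hf.reverse hg (hw.snd.snd.cons hw.snd.fst) (by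
      obtain ⟨bl, hbl, hbls⟩ := hf.size_le
      refine ⟨fun n => 2 * bl n + 1, ((PB.const 2).mul hbl).add (PB.const 1), ?_⟩
      intro a s x hx
      rw [size_cons]
      have h1 := size_of_mem (List.mem_reverse.1 hx)
      have h2 := hbls a
      simp only [size] at *
      omega)
  refine h1.congr (fun a => ?_)
  simp only
  rw [List.foldl_flip_cons_eq_append', List.reverse_reverse]

/-- Map with context. -/
theorem PolyTime.map {l : α → List β} {g : α × β → γ} (hl : PolyTime l) (hg : PolyTime g) :
    PolyTime (fun a => (l a).map (fun x => g (a, x))) := by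
  have hw : PolyTime (fun w : α × List γ × β => w) := PolyTime.id
  have h1 := PolyTime.foldl_add (σ := List γ) (f := fun _ => []) (l := l)
    (h := fun w => g (w.1, w.2.2) :: w.2.1) hl (PolyTime.const _)
    ((hg.comp (hw.fst.pair hw.snd.snd)).cons hw.snd.fst) (by
      obtain ⟨bl, hbl, hbls⟩ := hl.size_le
      obtain ⟨bg, ⟨pg, hpg⟩, hbgs⟩ := hg.size_le
      refine ⟨fun n => 2 * pg.eval (2 * n + 1 + bl n) + 1,
        ((PB.const 2).mul (PB.evalComp pg ((((PB.const 2).mul PB.id).add (PB.const 1)).add
          hbl))).add (PB.const 1), ?_⟩
      intro a s x hx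
      rw [size_cons]
      have h1 := size_of_mem hx
      have h2 := hbls a
      have h3 := hbgs (a, x)
      have h4 := hpg (size (a, x))
      have h5 : size (a, x) ≤ 2 * size a + 1 + bl (size a) := by
        rw [size_pair]; omega
      have h6 := eval_mono pg h5
      simp only [size] at *
      omega)
  refine h1.reverse.congr (fun a => ?_)
  have : ∀ (l' : List β) (acc : List γ),
      l'.foldl (fun s x => g (a, x) :: s) acc = (l'.map (fun x => g (a, x))).reverse ++ acc := by
    intro l'
    induction l' with
    | nil => intro acc; rfl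
    | cons x l' ih => intro acc; rw [List.foldl_cons, ih]; simp
  simp only
  rw [this]
  simp

/-- Filter with context. -/
theorem PolyTime.filter {l : α → List β} {g : α × β → Bool} (hl : PolyTime l) (hg : PolyTime g) :
    PolyTime (fun a => (l a).filter (fun x => g (a, x))) := by
  have hw : PolyTime (fun w : α × List β × β => w) := PolyTime.id
  have h1 := PolyTime.foldl_add (σ := List β) (f := fun _ => []) (l := l)
    (h := fun w => bif g (w.1, w.2.2) then w.2.2 :: w.2.1 else w.2.1) hl (PolyTime.const _)
    (PolyTime.cond (hg.comp (hw.fst.pair hw.snd.snd)) (hw.snd.snd.cons hw.snd.fst) hw.snd.fst) (by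
      obtain ⟨bl, hbl, hbls⟩ := hl.size_le
      refine ⟨fun n => 2 * bl n + 1, ((PB.const 2).mul hbl).add (PB.const 1), ?_⟩
      intro a s x hx
      have h1 := size_of_mem hx
      have h2 := hbls a
      simp only
      cases g (a, x)
      · simp only [cond_false, size]; omega
      · simp only [cond_true]
        rw [size_cons]
        simp only [size] at *
        omega)
  refine h1.reverse.congr (fun a => ?_)
  have : ∀ (l' : List β) (acc : List β),
      l'.foldl (fun s x => bif g (a, x) then x :: s else s) acc =
        (l'.filter (fun x => g (a, x))).reverse ++ acc := by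
    intro l'
    induction l' with
    | nil => intro acc; rfl
    | cons x l' ih =>
      intro acc
      rw [List.foldl_cons, ih]
      cases h : g (a, x) <;> simp [h]
  simp only
  rw [this]
  simp

/-- Concatenation of a list of lists. -/
theorem PolyTime.flatten {l : α → List (List β)} (hl : PolyTime l) :
    PolyTime (fun a => (l a).flatten) := by
  have hw : PolyTime (fun w : α × List β × List β => w) := PolyTime.id
  have h1 := PolyTime.foldl_add (σ := List β) (f := fun _ => []) (l := l)
    (h := fun w => w.2.1 ++ w.2.2) hl (PolyTime.const _)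
    (hw.snd.fst.append hw.snd.snd) (by
      obtain ⟨bl, hbl, hbls⟩ := hl.size_le
      refine ⟨fun n => bl n, hbl, ?_⟩
      intro a s x hx
      have h1 := size_of_mem hx
      have h2 := hbls a
      simp only
      rw [size_append]
      simp only [size] at *
      omega)
  refine h1.congr (fun a => ?_)
  have : ∀ (l' : List (List β)) (acc : List β),
      l'.foldl (fun s x => s ++ x) acc = acc ++ l'.flatten := by
    intro l'
    induction l' with
    | nil => intro acc; simp
    | cons x l' ih => intro acc; rw [List.foldl_cons, ih]; simp
  simp only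
  rw [this]
  simp

theorem PolyTime.flatMap {l : α → List β} {g : α × β → List γ} (hl : PolyTime l)
    (hg : PolyTime g) : PolyTime (fun a => (l a).flatMap (fun x => g (a, x))) := by
  refine (PolyTime.flatten (hl.map hg)).congr (fun a => ?_)
  rw [List.flatMap_def]

/-! ### booleans -/

theorem PolyTime.boolSplit {f : Bool × γ → β} (h1 : PolyTime (fun c => f (true, c)))
    (h2 : PolyTime (fun c => f (false, c))) : PolyTime f :=
  (PolyTime.boolCase h1 h2).congr (fun x => by
    obtain ⟨b, c⟩ := x
    cases b <;> rfl)

theorem PolyTime.boolFun (f : Bool → β) : PolyTime f := by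
  have h : PolyTime (fun x : Bool × Unit => f x.1) :=
    PolyTime.boolSplit (f := fun x : Bool × Unit => f x.1) (PolyTime.const (f true))
      (PolyTime.const (f false))
  exact h.comp (PolyTime.id.pair (PolyTime.const ()))

theorem PolyTime.not {f : α → Bool} (hf : PolyTime f) : PolyTime (fun a => !(f a)) :=
  (PolyTime.boolFun (fun b => !b)).comp hf

theorem PolyTime.and {f g : α → Bool} (hf : PolyTime f) (hg : PolyTime g) :
    PolyTime (fun a => f a && g a) :=
  (PolyTime.cond hf hg (PolyTime.const false)).congr (fun a => by cases f a <;> rfl)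

theorem PolyTime.or {f g : α → Bool} (hf : PolyTime f) (hg : PolyTime g) :
    PolyTime (fun a => f a || g a) :=
  (PolyTime.cond hf (PolyTime.const true) hg).congr (fun a => by cases f a <;> rfl)

theorem PolyTime.xor {f g : α → Bool} (hf : PolyTime f) (hg : PolyTime g) :
    PolyTime (fun a => Bool.xor (f a) (g a)) :=
  (PolyTime.cond hf hg.not hg).congr (fun a => by cases f a <;> cases g a <;> rfl)

/-- equality of Booleans -/
theorem PolyTime.beqBool {f g : α → Bool} (hf : PolyTime f) (hg : PolyTime g) :
    PolyTime (fun a => f a == g a) :=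
  (PolyTime.cond hf hg hg.not).congr (fun a => by cases f a <;> cases g a <;> rfl)

/-- `List.all` with context -/
theorem PolyTime.all {l : α → List β} {g : α × β → Bool} (hl : PolyTime l) (hg : PolyTime g) :
    PolyTime (fun a => (l a).all (fun x => g (a, x))) := by
  have hw : PolyTime (fun w : α × Bool × β => w) := PolyTime.id
  have h1 := PolyTime.foldl_add (σ := Bool) (f := fun _ => true) (l := l)
    (h := fun w => w.2.1 && g (w.1, w.2.2)) hl (PolyTime.const _)
    (hw.snd.fst.and (hg.comp (hw.fst.pair hw.snd.snd))) (by
      refine ⟨fun _ => 0, PB.const 0, ?_⟩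
      intro a s x _
      rw [size_bool, size_bool]
      exact Nat.le_add_right _ _)
  refine h1.congr (fun a => ?_)
  have : ∀ (l' : List β) (acc : Bool),
      l'.foldl (fun s x => s && g (a, x)) acc = (acc && l'.all (fun x => g (a, x))) := by
    intro l'
    induction l' with
    | nil => intro acc; simp
    | cons x l' ih => intro acc; rw [List.foldl_cons, ih]; simp [Bool.and_assoc]
  simp only
  rw [this]
  simp

/-- `List.any` with context -/
theorem PolyTime.any {l : α → List β} {g : α × β → Bool} (hl : PolyTime l) (hg : PolyTime g) :
    PolyTime (fun a => (l a).any (fun x => g (a, x))) := by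
  have hw : PolyTime (fun w : α × Bool × β => w) := PolyTime.id
  have h1 := PolyTime.foldl_add (σ := Bool) (f := fun _ => false) (l := l)
    (h := fun w => w.2.1 || g (w.1, w.2.2)) hl (PolyTime.const _)
    (hw.snd.fst.or (hg.comp (hw.fst.pair hw.snd.snd))) (by
      refine ⟨fun _ => 0, PB.const 0, ?_⟩
      intro a s x _
      rw [size_bool, size_bool]
      exact Nat.le_add_right _ _)
  refine h1.congr (fun a => ?_)
  have : ∀ (l' : List β) (acc : Bool),
      l'.foldl (fun s x => s || g (a, x)) acc = (acc || l'.any (fun x => g (a, x))) := by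
    intro l'
    induction l' with
    | nil => intro acc; simp
    | cons x l' ih => intro acc; rw [List.foldl_cons, ih]; simp [Bool.or_assoc]
  simp only
  rw [this]
  simp

/-- bounded universal quantification over a list -/
theorem PolyTime.forallMem {l : α → List β} {P : α → β → Prop} [∀ a x, Decidable (P a x)]
    (hl : PolyTime l) (hP : PolyTime (fun z : α × β => decide (P z.1 z.2))) :
    PolyTime (fun a => decide (∀ x ∈ l a, P a x)) :=
  (PolyTime.all hl hP).congr (fun a => by
    rw [Bool.eq_iff_iff]; simp)

/-- bounded existential quantification over a list -/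
theorem PolyTime.existsMem {l : α → List β} {P : α → β → Prop} [∀ a x, Decidable (P a x)]
    (hl : PolyTime l) (hP : PolyTime (fun z : α × β => decide (P z.1 z.2))) :
    PolyTime (fun a => decide (∃ x ∈ l a, P a x)) :=
  (PolyTime.any hl hP).congr (fun a => by
    rw [Bool.eq_iff_iff]; simp)

theorem PolyTime.decNot {P : α → Prop} [DecidablePred P] (h : PolyTime (fun a => decide (P a))) :
    PolyTime (fun a => decide (¬ P a)) :=
  h.not.congr (fun a => by simp)

theorem PolyTime.decAnd {P Q : α → Prop} [DecidablePred P] [DecidablePred Q]
    (h : PolyTime (fun a => decide (P a))) (h' : PolyTime (fun a => decide (Q a))) :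
    PolyTime (fun a => decide (P a ∧ Q a)) :=
  (h.and h').congr (fun a => by simp)

theorem PolyTime.decOr {P Q : α → Prop} [DecidablePred P] [DecidablePred Q]
    (h : PolyTime (fun a => decide (P a))) (h' : PolyTime (fun a => decide (Q a))) :
    PolyTime (fun a => decide (P a ∨ Q a)) :=
  (h.or h').congr (fun a => by simp)

/-! ### options -/

theorem PolyTime.optElim {o : γ → Option α} {f : γ → β} {g : α × γ → β} (ho : PolyTime o)
    (hf : PolyTime f) (hg : PolyTime g) :
    PolyTime (fun c => (o c).elim (f c) (fun a => g (a, c))) :=
  (PolyTime.optCase hf hg).comp (ho.pair PolyTime.id)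

theorem PolyTime.getD {o : γ → Option α} {f : γ → α} (ho : PolyTime o) (hf : PolyTime f) :
    PolyTime (fun c => (o c).getD (f c)) :=
  (PolyTime.optElim (g := fun z : α × γ => z.1) ho hf PolyTime.fst').congr (fun c => by
    cases o c <;> rfl)

theorem PolyTime.isSome {o : γ → Option α} (ho : PolyTime o) : PolyTime (fun c => (o c).isSome) :=
  (PolyTime.optElim (g := fun _ : α × γ => true) ho (PolyTime.const false)
    (PolyTime.const true)).congr (fun c => by cases o c <;> rfl)

theorem PolyTime.some {f : γ → α} (hf : PolyTime f) : PolyTime (fun c => Option.some (f c)) :=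
  PolyTime.someOf.comp hf

theorem PolyTime.optMap {o : γ → Option α} {g : α × γ → β} (ho : PolyTime o)
    (hg : PolyTime g) : PolyTime (fun c => (o c).map (fun a => g (a, c))) :=
  (PolyTime.optElim (f := fun _ => none) ho (PolyTime.const none) hg.some).congr
    (fun c => by cases o c <;> rfl)

theorem PolyTime.optBind {o : γ → Option α} {g : α × γ → Option β} (ho : PolyTime o)
    (hg : PolyTime g) : PolyTime (fun c => (o c).bind (fun a => g (a, c))) :=
  (PolyTime.optElim (f := fun _ => none) ho (PolyTime.const none) hg).congr
    (fun c => by cases o c <;> rfl)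

theorem PolyTime.head? {l : γ → List α} (hl : PolyTime l) : PolyTime (fun c => (l c).head?) :=
  (PolyTime.optMap (g := fun z : (α × List α) × γ => z.1.1) (PolyTime.uncons'.comp hl)
    PolyTime.fst'.fst).congr (fun c => by cases l c <;> rfl)

theorem PolyTime.tail {l : γ → List α} (hl : PolyTime l) : PolyTime (fun c => (l c).tail) :=
  (PolyTime.optElim (f := fun _ => ([] : List α)) (g := fun z : (α × List α) × γ => z.1.2)
    (PolyTime.uncons'.comp hl) (PolyTime.const _) PolyTime.fst'.snd).congr
    (fun c => by cases l c <;> rfl)

theorem PolyTime.isEmpty {l : γ → List α} (hl : PolyTime l) : PolyTime (fun c => (l c).isEmpty) :=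
  (PolyTime.isSome (PolyTime.uncons'.comp hl)).not.congr (fun c => by cases l c <;> rfl)

theorem PolyTime.listCase {l : γ → List α} {f : γ → β} {g : (α × List α) × γ → β}
    (hl : PolyTime l) (hf : PolyTime f) (hg : PolyTime g) :
    PolyTime (fun c => (uncons (l c)).elim (f c) (fun z => g (z, c))) :=
  PolyTime.optElim (PolyTime.uncons'.comp hl) hf hg

end Pool.Agent.H80.Poly
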