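import Mathlib
import Pool.Agent.H80.Poly.Lists

set_option autoImplicit false
set_option linter.unusedSectionVars false

/-!
# Binary natural numbers, decidable equality, ranges
-/

namespace Pool.Agent.H80.Poly

open Function

variable {α β γ δ σ τ : Type} [BEnc α] [BEnc β] [BEnc γ] [BEnc δ] [BEnc σ] [BEnc τ]

/-! ### raw strings and lists of bits -/

/-- expansion of raw strings into lists of bits -/
def expandP : Prog := Prog.seq (mv 0 1) (Prog.loop 1 ne (Prog.ite 1 tt
  (Prog.seq (Prog.pop 1) (Prog.seq (Prog.push 0 false) (Prog.seq (Prog.push 0 true)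
    (Prog.push 0 true))))
  (Prog.seq (Prog.pop 1) (Prog.seq (Prog.push 0 false) (Prog.seq (Prog.push 0 false)
    (Prog.push 0 true))))))

theorem enc_listBool_append (x y : List Bool) : enc (x ++ y) = enc x ++ enc y := by
  induction x with
  | nil => rfl
  | cons b x ih => rw [List.cons_append, enc_cons, enc_cons, ih]; simp [pr]

theorem expand_loop : ∀ (x y : List Bool), Ex (Prog.loop 1 ne (Prog.ite 1 tt
  (Prog.seq (Prog.pop 1) (Prog.seq (Prog.push 0 false) (Prog.seq (Prog.push 0 true)
    (Prog.push 0 true))))
  (Prog.seq (Prog.pop 1) (Prog.seq (Prog.push 0 false) (Prog.seq (Prog.push 0 false)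
    (Prog.push 0 true)))))) (hi 1 y x [] []) (hi 1 (enc x.reverse ++ y) [] [] [])
    (6 * x.length + 1) := by
  intro x
  induction x with
  | nil => intro y; exact Ex.loopF (by rw [hi_m one_pos]; rfl)
  | cons b x ih =>
    intro y
    have p0 : ∀ c z, Ex (Prog.push 0 c) (hi 1 z x [] []) (hi 1 (c :: z) x [] []) 1 := by
      intro c z
      have := Ex.push 0 c (hi 1 z x [] [])
      rwa [hi_u0, hi_0] at this
    have p1 : Ex (Prog.pop 1) (hi 1 y (b :: x) [] []) (hi 1 y x [] []) 1 := by
      have := Ex.pop 1 (hi 1 y (b :: x) [] [])
      rwa [hi_m one_pos, List.tail_cons, hi_um one_pos] at this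
    have h2 := ih (true :: b :: false :: y)
    have e : enc x.reverse ++ true :: b :: false :: y = enc (b :: x).reverse ++ y := by
      rw [List.reverse_cons, enc_listBool_append]
      simp [pr]
    rw [e] at h2
    have e2 : 5 + (6 * x.length + 1) + 1 - 1 + 1 = 6 * (b :: x).length + 1 := by
      simp only [List.length_cons]; omega
    have body : Ex (Prog.ite 1 tt
        (Prog.seq (Prog.pop 1) (Prog.seq (Prog.push 0 false) (Prog.seq (Prog.push 0 true)
          (Prog.push 0 true))))
        (Prog.seq (Prog.pop 1) (Prog.seq (Prog.push 0 false) (Prog.seq (Prog.push 0 false)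
          (Prog.push 0 true))))) (hi 1 y (b :: x) [] [])
        (hi 1 (true :: b :: false :: y) x [] []) 5 := by
      cases b with
      | true =>
        exact Ex.iteT (by rw [hi_m one_pos]; rfl)
          (Ex.seq p1 (Ex.seq (p0 _ _) (Ex.seq (p0 _ _) (p0 _ _))))
      | false =>
        exact Ex.iteF (by rw [hi_m one_pos]; rfl)
          (Ex.seq p1 (Ex.seq (p0 _ _) (Ex.seq (p0 _ _) (p0 _ _))))
    have h3 := Ex.loopT (i := 1) (c := ne) (by rw [hi_m one_pos]; rfl) body h2
    have e3 : 5 + (6 * x.length + 1) + 1 = 6 * (b :: x).length + 1 := by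
      simp only [List.length_cons]; ring
    rw [e3] at h3
    exact h3

/-- a raw bit string as a list of Booleans -/
def strToList (x : Str) : List Bool := x

/-- a list of Booleans as a raw bit string -/
def listToStr (x : List Bool) : Str := x

theorem PolyTime.strToList' : PolyTime strToList := by
  refine ⟨expandP, fun n => (4 * n + 1) + (6 * n + 1),
    (((PB.const 4).mul PB.id).add (PB.const 1)).add (((PB.const 6).mul PB.id).add (PB.const 1)),
    fun x => ?_⟩
  have s1 : Ex (mv 0 1) (ini (enc x)) (hi 1 [] (enc x).reverse [] []) (4 * (enc x).length + 1) := by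
    have := mv_spec (i := 0) (j := 1) (by omega) (enc x) (hi 1 (enc x) [] [] []) (hi_0 _ _ _ _ _)
    rw [hi_m one_pos, hi_u0, hi_um one_pos, List.append_nil] at this
    rwa [hi_ini] at this
  have s2 := expand_loop (enc x).reverse []
  rw [List.reverse_reverse, List.length_reverse, List.append_nil, hi_ini] at s2
  exact ⟨_, le_rfl, Ex.seq s1 s2⟩

/-- contraction of lists of bits into raw strings -/
def contractP : Prog := Prog.seq (Prog.loop 0 ne (Prog.seq (Prog.pop 0) (Prog.seq (mv1 0 1)
  (Prog.pop 0)))) (mv 1 0)

theorem contract_loop : ∀ (x y : List Bool), Ex (Prog.loop 0 ne (Prog.seq (Prog.pop 0)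
    (Prog.seq (mv1 0 1) (Prog.pop 0)))) (hi 1 (enc x) y [] []) (hi 1 [] (x.reverse ++ y) [] [])
    (6 * x.length + 1) := by
  intro x
  induction x with
  | nil => intro y; exact Ex.loopF (by rw [hi_0]; rfl)
  | cons b x ih =>
    intro y
    have p1 : ∀ c z w, Ex (Prog.pop 0) (hi 1 (c :: z) w [] []) (hi 1 z w [] []) 1 := by
      intro c z w
      have := Ex.pop 0 (hi 1 (c :: z) w [] [])
      rwa [hi_0, List.tail_cons, hi_u0] at this
    have p2 : Ex (mv1 0 1) (hi 1 (b :: false :: enc x) y [] [])
        (hi 1 (false :: enc x) (b :: y) [] []) 3 := by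
      have := mv1_spec (i := 0) (j := 1) (by omega) (hi 1 (b :: false :: enc x) y [] []) b
        (false :: enc x) (hi_0 _ _ _ _ _)
      rwa [hi_m one_pos, hi_u0, hi_um one_pos] at this
    have body : Ex (Prog.seq (Prog.pop 0) (Prog.seq (mv1 0 1) (Prog.pop 0)))
        (hi 1 (enc (b :: x)) y [] []) (hi 1 (enc x) (b :: y) [] []) 5 :=
      Ex.seq (p1 true (b :: false :: enc x) y) (Ex.seq p2 (p1 false (enc x) (b :: y)))
    have h3 := Ex.loopT (i := 0) (c := ne) (by rw [hi_0]; rfl) body (ih (b :: y))
    have e3 : 5 + (6 * x.length + 1) + 1 = 6 * (b :: x).length + 1 := by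
      simp only [List.length_cons]; ring
    rw [e3] at h3
    simpa using h3

theorem PolyTime.listToStr' : PolyTime listToStr := by
  refine ⟨contractP, fun n => (6 * n + 1) + (4 * n + 1),
    (((PB.const 6).mul PB.id).add (PB.const 1)).add (((PB.const 4).mul PB.id).add (PB.const 1)),
    fun x => ?_⟩
  have s1 := contract_loop x []
  rw [hi_ini, List.append_nil] at s1
  have s2 : Ex (mv 1 0) (hi 1 [] x.reverse [] []) (ini x) (4 * x.length + 1) := by
    have := mv_spec (i := 1) (j := 0) (by omega) x.reverse (hi 1 [] x.reverse [] [])
      (hi_m one_pos _ _ _ _)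
    rw [hi_0, hi_um one_pos, hi_u0, List.reverse_reverse, List.append_nil,
      List.length_reverse] at this
    rwa [hi_ini] at this
  refine ⟨_, ?_, Ex.seq s1 s2⟩
  have : x.length ≤ (enc x).length := length_le_size x
  simp only
  omega

/-! ### decidable equality -/

/-- one step of the comparison of two lists of bits -/
def cmpStep (s : List Bool × Bool) (b : Bool) : List Bool × Bool :=
  (uncons s.1).elim ([], false) (fun z => (z.2, s.2 && (z.1 == b)))

theorem cmp_foldl : ∀ (x y : List Bool) (ok : Bool),
    (((x.foldl cmpStep (y, ok)).2 && (x.foldl cmpStep (y, ok)).1.isEmpty) = (ok && decide (y = x))) := by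
  intro x
  induction x with
  | nil => intro y ok; cases y <;> simp
  | cons b x ih =>
    intro y ok
    cases y with
    | nil =>
      rw [List.foldl_cons]
      have : cmpStep (([] : List Bool), ok) b = ([], false) := rfl
      rw [this, ih]
      simp
    | cons c y =>
      rw [List.foldl_cons]
      have : cmpStep ((c :: y), ok) b = (y, ok && (c == b)) := rfl
      rw [this, ih]
      by_cases hcb : c = b
      · subst hcb; simp
      · simp [hcb]

theorem PolyTime.eqListBool {f g : α → List Bool} (hf : PolyTime f) (hg : PolyTime g) :
    PolyTime (fun a => decide (f a = g a)) := by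
  have hw : PolyTime (fun w : α × (List Bool × Bool) × Bool => w) := PolyTime.id
  have hz : PolyTime (fun z : (Bool × List Bool) × (α × (List Bool × Bool) × Bool) => z) :=
    PolyTime.id
  have hstep : PolyTime (fun w : α × (List Bool × Bool) × Bool => cmpStep w.2.1 w.2.2) :=
    PolyTime.optElim (f := fun _ => (([] : List Bool), false))
      (g := fun z : (Bool × List Bool) × (α × (List Bool × Bool) × Bool) =>
        (z.1.2, z.2.2.1.2 && (z.1.1 == z.2.2.2)))
      (PolyTime.uncons'.comp hw.snd.fst.fst) (PolyTime.const _)
      (hz.fst.snd.pair (hz.snd.snd.fst.snd.and (hz.fst.fst.beqBool hz.snd.snd.snd)))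
  have h1 := PolyTime.foldl_add (σ := List Bool × Bool) (l := g) (f := fun a => (f a, true))
    (h := fun w => cmpStep w.2.1 w.2.2) hg (hf.pair (PolyTime.const true)) hstep (by
      refine ⟨fun _ => 0, PB.const 0, ?_⟩
      rintro a ⟨y, ok⟩ b _
      cases y with
      | nil =>
        have : cmpStep (([] : List Bool), ok) b = ([], false) := rfl
        simp only [this]
        rw [size_pair, size_pair, size_bool, size_bool]
      | cons c y =>
        have : cmpStep ((c :: y), ok) b = (y, ok && (c == b)) := rfl
        simp only [this]
        rw [size_pair, size_pair, size_bool, size_bool, size_cons]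
        omega)
  refine (h1.snd.and h1.fst.isEmpty).congr (fun a => ?_)
  rw [cmp_foldl]
  simp

/-- **Decidable equality** is polynomial-time for every encoded type. -/
theorem PolyTime.eq [DecidableEq β] {f g : α → β} (hf : PolyTime f) (hg : PolyTime g) :
    PolyTime (fun a => decide (f a = g a)) := by
  have h1 : PolyTime (fun a => strToList (toStr (f a))) :=
    PolyTime.strToList'.comp (PolyTime.toStr'.comp hf)
  have h2 : PolyTime (fun a => strToList (toStr (g a))) :=
    PolyTime.strToList'.comp (PolyTime.toStr'.comp hg)
  refine (PolyTime.eqListBool h1 h2).congr (fun a => ?_)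
  have : (strToList (toStr (f a)) = strToList (toStr (g a))) ↔ f a = g a :=
    ⟨fun h => BEnc.enc_inj h, fun h => by rw [h]⟩
  exact decide_eq_decide.2 this

/-- membership in a list -/
theorem PolyTime.mem [DecidableEq β] {f : α → β} {l : α → List β} (hf : PolyTime f)
    (hl : PolyTime l) : PolyTime (fun a => decide (f a ∈ l a)) := by
  have hw : PolyTime (fun z : α × β => z) := PolyTime.id
  refine (PolyTime.any hl (g := fun z : α × β => decide (f z.1 = z.2))
    (PolyTime.eq (hf.comp hw.fst) hw.snd)).congr (fun a => ?_)
  rw [Bool.eq_iff_iff]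
  simp

/-! ### natural numbers -/

/-- value of a little-endian digit list -/
def val : List Bool → ℕ
  | [] => 0
  | b :: l => b.toNat + 2 * val l

theorem val_encodePosNum (n : PosNum) : val (Computability.encodePosNum n) = (n : ℕ) := by
  induction n with
  | one => simp [Computability.encodePosNum, val]
  | bit1 n ih => rw [Computability.encodePosNum, val, ih]; simp [PosNum.cast_bit1]; ring
  | bit0 n ih => rw [Computability.encodePosNum, val, ih]; simp [PosNum.cast_bit0]; ring

theorem val_encodeNat (n : ℕ) : val (Computability.encodeNat n) = n := by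
  unfold Computability.encodeNat Computability.encodeNum
  conv_rhs => rw [← Num.to_of_nat n]
  cases h : (n : Num) with
  | zero => simp [val]
  | pos m => exact val_encodePosNum m

/-- no leading zero -/
def Canon (x : List Bool) : Prop := x.getLast? ≠ some false

theorem canon_encodePosNum (n : PosNum) :
    (Computability.encodePosNum n).getLast? = some true := by
  induction n with
  | one => rfl
  | bit1 n ih =>
    rw [Computability.encodePosNum, List.getLast?_cons, ih]; rfl
  | bit0 n ih =>
    rw [Computability.encodePosNum, List.getLast?_cons, ih]; rfl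

theorem canon_encodeNat (n : ℕ) : Canon (Computability.encodeNat n) := by
  unfold Canon Computability.encodeNat Computability.encodeNum
  cases h : (n : Num) with
  | zero => simp
  | pos m => simp [canon_encodePosNum]

theorem canon_tail {b : Bool} {x : List Bool} (h : Canon (b :: x)) : Canon x := by
  unfold Canon at *
  intro hx
  apply h
  rw [List.getLast?_cons, hx]
  rfl

theorem canon_val_pos {b : Bool} {x : List Bool} (h : Canon (b :: x)) : 0 < val (b :: x) := by
  induction x generalizing b with
  | nil =>
    cases b
    · exact absurd rfl h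
    · simp [val]
  | cons c x ih =>
    have := ih (canon_tail h)
    rw [val]
    omega

theorem canon_unique : ∀ (x y : List Bool), Canon x → Canon y → val x = val y → x = y := by
  intro x
  induction x with
  | nil =>
    intro y _ hy h
    cases y with
    | nil => rfl
    | cons b y =>
      have := canon_val_pos hy
      simp only [val] at h this
      omega
  | cons a x ih =>
    intro y hx hy h
    cases y with
    | nil =>
      have := canon_val_pos hx
      simp only [val] at h this
      omega
    | cons b y =>
      simp only [val] at h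
      have hab : a = b := by
        cases a <;> cases b <;> simp at h ⊢ <;> omega
      subst hab
      rw [ih y (canon_tail hx) (canon_tail hy) (by omega)]

/-- remove leading zeros -/
def strip (x : List Bool) : List Bool := (x.reverse.dropWhile (fun b => b == false)).reverse

theorem canon_strip (x : List Bool) : Canon (strip x) := by
  unfold Canon strip
  rw [List.getLast?_reverse]
  intro h
  have := List.head?_dropWhile_not (fun b => b == false) x.reverse
  rw [h] at this
  simp at this

theorem val_append (x y : List Bool) : val (x ++ y) = val x + 2 ^ x.length * val y := by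
  induction x with
  | nil => simp [val]
  | cons b x ih => rw [List.cons_append, val, val, ih, List.length_cons, pow_succ]; ring

theorem val_replicate_false (n : ℕ) : val (List.replicate n false) = 0 := by
  induction n with
  | zero => rfl
  | succ n ih => rw [List.replicate_succ, val, ih]; rfl

theorem val_strip (x : List Bool) : val (strip x) = val x := by
  unfold strip
  have h1 := List.takeWhile_append_dropWhile (p := fun b => b == false) (l := x.reverse)
  have h2 : ∃ n, List.takeWhile (fun b => b == false) x.reverse = List.replicate n false := by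
    refine ⟨_, List.eq_replicate_of_mem (fun b hb => ?_)⟩
    have := List.mem_takeWhile_imp hb
    simpa using this
  obtain ⟨n, hn⟩ := h2
  have h3 := congrArg List.reverse h1
  rw [List.reverse_reverse, List.reverse_append, hn, List.reverse_replicate] at h3
  conv_rhs => rw [← h3]
  rw [val_append, val_replicate_false]
  ring

theorem encodeNat_val (x : List Bool) : Computability.encodeNat (val x) = strip x := by
  apply canon_unique _ _ (canon_encodeNat _) (canon_strip x)
  rw [val_encodeNat, val_strip]

/-- is the top `false` -/
def ff : Option Bool → Bool := fun o => o == some false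

/-- program removing leading zeros -/
def stripP : Prog := Prog.seq (mv 0 1) (Prog.seq (Prog.loop 1 ff (Prog.pop 1)) (mv 1 0))

/-- value of a raw string -/
def strVal (x : Str) : ℕ := val x

theorem PolyTime.strVal' : PolyTime strVal := by
  refine ⟨stripP, fun n => (4 * n + 1) + ((2 * n + 1) + (4 * n + 1)),
    (((PB.const 4).mul PB.id).add (PB.const 1)).add ((((PB.const 2).mul PB.id).add
      (PB.const 1)).add (((PB.const 4).mul PB.id).add (PB.const 1))),
    fun x => ?_⟩
  have s1 : Ex (mv 0 1) (ini (enc x)) (hi 1 [] (enc x).reverse [] []) (4 * (enc x).length + 1) := by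
    have := mv_spec (i := 0) (j := 1) (by omega) (enc x) (hi 1 (enc x) [] [] []) (hi_0 _ _ _ _ _)
    rw [hi_m one_pos, hi_u0, hi_um one_pos, List.append_nil] at this
    rwa [hi_ini] at this
  have s2 : ∀ y : List Bool, ∃ n ≤ 2 * y.length + 1, Ex (Prog.loop 1 ff (Prog.pop 1))
      (hi 1 [] y [] []) (hi 1 [] (y.dropWhile (fun b => b == false)) [] []) n := by
    intro y
    induction y with
    | nil => exact ⟨1, by simp, Ex.loopF (by rw [hi_m one_pos]; rfl)⟩
    | cons b y ih =>
      cases b with
      | true => exact ⟨1, by simp, Ex.loopF (by rw [hi_m one_pos]; rfl)⟩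
      | false =>
        obtain ⟨n, hn, h⟩ := ih
        have p1 : Ex (Prog.pop 1) (hi 1 [] (false :: y) [] []) (hi 1 [] y [] []) 1 := by
          have := Ex.pop 1 (hi 1 [] (false :: y) [] [])
          rwa [hi_m one_pos, List.tail_cons, hi_um one_pos] at this
        have e : (false :: y).dropWhile (fun b => b == false) =
          y.dropWhile (fun b => b == false) := rfl
        refine ⟨1 + n + 1, by rw [List.length_cons]; omega, ?_⟩
        rw [e]
        exact Ex.loopT (i := 1) (c := ff) (by rw [hi_m one_pos]; rfl) p1 h
  obtain ⟨n2, hn2, h2⟩ := s2 (enc x).reverse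
  rw [List.length_reverse] at hn2
  set z := (enc x).reverse.dropWhile (fun b => b == false) with hz
  have hzl : z.length ≤ (enc x).length := by
    have := List.length_dropWhile_le (fun b => b == false) (enc x).reverse
    rw [List.length_reverse] at this
    exact this
  have s3 : Ex (mv 1 0) (hi 1 [] z [] []) (ini z.reverse) (4 * z.length + 1) := by
    have := mv_spec (i := 1) (j := 0) (by omega) z (hi 1 [] z [] [])
      (hi_m one_pos _ _ _ _)
    rw [hi_0, hi_um one_pos, hi_u0, List.append_nil] at this
    rwa [hi_ini] at this
  have e : enc (strVal x) = z.reverse := encodeNat_val x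
  rw [e]
  refine ⟨_, ?_, Ex.seq s1 (Ex.seq h2 s3)⟩
  simp only
  omega

/-- binary digits -/
theorem PolyTime.bits {f : α → ℕ} (hf : PolyTime f) :
    PolyTime (fun a => Computability.encodeNat (f a)) :=
  (PolyTime.strToList'.comp (PolyTime.toStr'.comp hf)).congr (fun _ => rfl)

/-- the value of a list of binary digits -/
theorem PolyTime.val {f : α → List Bool} (hf : PolyTime f) : PolyTime (fun a => val (f a)) :=
  (PolyTime.strVal'.comp (PolyTime.listToStr'.comp hf)).congr (fun _ => rfl)

theorem val_lt (l : List Bool) : Poly.val l < 2 ^ l.length := by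
  induction l with
  | nil => simp [Poly.val]
  | cons b l ih =>
    simp only [Poly.val, List.length_cons, pow_succ]
    cases b <;> simp <;> omega

theorem canon_le {x : List Bool} (h : Canon x) (hx : x ≠ []) : 2 ^ x.length ≤ 2 * Poly.val x := by
  induction x with
  | nil => exact absurd rfl hx
  | cons b x ih =>
    cases x with
    | nil =>
      cases b
      · exact absurd rfl h
      · simp [Poly.val]
    | cons c x =>
      have := ih (canon_tail h) (by simp)
      rw [List.length_cons, pow_succ, Poly.val]
      omega

/-- the size of a natural number -/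
theorem size_nat (n : ℕ) : size n = n.size := by
  have hc := canon_encodeNat n
  have hv := val_encodeNat n
  show (Computability.encodeNat n).length = n.size
  generalize Computability.encodeNat n = x at *
  subst hv
  apply le_antisymm
  · by_cases hx : x = []
    · subst hx; simp
    · have h1 := canon_le hc hx
      rw [← not_lt, Nat.lt_iff_add_one_le, ← not_lt] at *
      intro h
      push Not at h
      have h2 : Poly.val x < 2 ^ (x.length - 1) := by
        rw [← Nat.size_le]
        omega
      have h3 : 2 ^ x.length = 2 * 2 ^ (x.length - 1) := by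
        have : 0 < x.length := List.length_pos_of_ne_nil hx
        rw [← pow_succ']
        congr 1
        omega
      omega
  · rw [Nat.size_le]
    exact val_lt x

theorem size_nat_le_self (n : ℕ) : size n ≤ n := by
  rw [size_nat, Nat.size_le]
  exact Nat.lt_two_pow_self

theorem size_nat_mono {m n : ℕ} (h : m ≤ n) : size m ≤ size n := by
  rw [size_nat, size_nat]
  exact Nat.size_le_size h

theorem lt_two_pow_size (n : ℕ) : n < 2 ^ size n := by
  rw [size_nat]; exact Nat.lt_size_self n

/-! ### digitwise operations -/

/-- digitwise operation with carry on two digit lists, `n` steps -/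
def bitOp (f : Bool × Bool × Bool → Bool × Bool) : ℕ → List Bool → List Bool → Bool →
    List Bool × Bool
  | 0, _, _, c => ([], c)
  | n + 1, x, y, c =>
    ((f (x.headD false, y.headD false, c)).1 ::
      (bitOp f n x.tail y.tail (f (x.headD false, y.headD false, c)).2).1,
     (bitOp f n x.tail y.tail (f (x.headD false, y.headD false, c)).2).2)

/-- one step of the digitwise operation -/
def bitStep (f : Bool × Bool × Bool → Bool × Bool)
    (s : List Bool × List Bool × Bool × List Bool) : List Bool × List Bool × Bool × List Bool :=
  (s.1.tail, s.2.1.tail, (f (s.1.headD false, s.2.1.headD false, s.2.2.1)).2,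
    (f (s.1.headD false, s.2.1.headD false, s.2.2.1)).1 :: s.2.2.2)

theorem bitStep_foldl {ι : Type} (f : Bool × Bool × Bool → Bool × Bool) : ∀ (l : List ι)
    (x y : List Bool) (c : Bool) (out : List Bool),
    (l.foldl (fun s _ => bitStep f s) (x, y, c, out)).2.2 =
      ((bitOp f l.length x y c).2, (bitOp f l.length x y c).1.reverse ++ out) := by
  intro l
  induction l with
  | nil => intro x y c out; simp [bitOp]
  | cons i l ih =>
    intro x y c out
    rw [List.foldl_cons]
    have : bitStep f (x, y, c, out) = (x.tail, y.tail,
      (f (x.headD false, y.headD false, c)).2, (f (x.headD false, y.headD false, c)).1 :: out) := rfl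
    rw [this, ih]
    simp [bitOp]

theorem PolyTime.headD {l : α → List β} (d : β) (hl : PolyTime l) :
    PolyTime (fun a => (l a).headD d) :=
  (hl.head?.getD (PolyTime.const d)).congr (fun a => by cases l a <;> rfl)

theorem PolyTime.bool3 (f : Bool × Bool × Bool → β) : PolyTime f :=
  PolyTime.boolSplit
    (PolyTime.boolSplit (PolyTime.boolFun fun b => f (true, true, b))
      (PolyTime.boolFun fun b => f (true, false, b)))
    (PolyTime.boolSplit (PolyTime.boolFun fun b => f (false, true, b))
      (PolyTime.boolFun fun b => f (false, false, b)))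

theorem PolyTime.bitOp (f : Bool × Bool × Bool → Bool × Bool) (c : Bool) {x y : α → List Bool}
    (hx : PolyTime x) (hy : PolyTime y) :
    PolyTime (fun a => bitOp f ((x a).length + (y a).length + 1) (x a) (y a) c) := by
  have hf : PolyTime f := PolyTime.bool3 f
  have hw : PolyTime (fun w : α × (List Bool × List Bool × Bool × List Bool) × Bool => w) :=
    PolyTime.id
  have hs := hw.snd.fst
  have ht : PolyTime (fun w : α × (List Bool × List Bool × Bool × List Bool) × Bool =>
      ((w.2.1.1.headD false, w.2.1.2.1.headD false, w.2.1.2.2.1) : Bool × Bool × Bool)) :=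
    (PolyTime.headD false hs.fst).pair ((PolyTime.headD false hs.snd.fst).pair hs.snd.snd.fst)
  have hstep : PolyTime (fun w : α × (List Bool × List Bool × Bool × List Bool) × Bool =>
      bitStep f w.2.1) :=
    hs.fst.tail.pair (hs.snd.fst.tail.pair ((hf.comp ht).snd.pair
      ((hf.comp ht).fst.cons hs.snd.snd.snd)))
  have hl : PolyTime (fun a => x a ++ (y a ++ [false])) :=
    hx.append (hy.append (PolyTime.const [false]))
  have h1 := PolyTime.foldl_add (l := fun a => x a ++ (y a ++ [false]))
    (f := fun a => (x a, y a, c, ([] : List Bool)))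
    (h := fun w : α × (List Bool × List Bool × Bool × List Bool) × Bool => bitStep f w.2.1) hl
    (hx.pair (hy.pair ((PolyTime.const c).pair (PolyTime.const [])))) hstep (by
      refine ⟨fun _ => 3, PB.const 3, ?_⟩
      rintro a ⟨x, y, c, out⟩ b _
      simp only [bitStep]
      rw [size_pair, size_pair, size_pair, size_pair, size_pair, size_pair, size_cons, size_bool,
        size_bool, size_bool]
      have h1 : size x.tail ≤ size x := by
        cases x with
        | nil => exact le_rfl
        | cons a x => rw [List.tail_cons, size_cons]; omega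
      have h2 : size y.tail ≤ size y := by
        cases y with
        | nil => exact le_rfl
        | cons a x => rw [List.tail_cons, size_cons]; omega
      omega)
  refine ((h1.snd.snd.snd.reverse).pair h1.snd.snd.fst).congr (fun a => ?_)
  rw [bitStep_foldl]
  simp only [List.append_nil, List.reverse_reverse, List.length_append, List.length_cons,
    List.length_nil, zero_add, Prod.mk.eta, ← add_assoc]

theorem val_headD_tail (x : List Bool) : Poly.val x = (x.headD false).toNat + 2 * Poly.val x.tail := by
  cases x with
  | nil => rfl
  | cons b x => rfl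

/-- addition of digits -/
def addF (z : Bool × Bool × Bool) : Bool × Bool :=
  (Bool.xor (Bool.xor z.1 z.2.1) z.2.2, (z.1 && z.2.1) || (z.2.2 && (z.1 || z.2.1)))

theorem addF_spec (a b c : Bool) : a.toNat + b.toNat + c.toNat =
    (addF (a, b, c)).1.toNat + 2 * (addF (a, b, c)).2.toNat := by
  cases a <;> cases b <;> cases c <;> rfl

theorem bitOp_add : ∀ (n : ℕ) (x y : List Bool) (c : Bool), x.length ≤ n → y.length ≤ n →
    Poly.val (Poly.bitOp addF n x y c).1 + 2 ^ n * (Poly.bitOp addF n x y c).2.toNat =
      Poly.val x + Poly.val y + c.toNat := by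
  intro n
  induction n with
  | zero =>
    intro x y c hx hy
    have h1 : x = [] := List.length_eq_zero_iff.1 (by omega)
    have h2 : y = [] := List.length_eq_zero_iff.1 (by omega)
    subst h1 h2
    simp [Poly.bitOp, Poly.val]
  | succ n ih =>
    intro x y c hx hy
    have h := ih x.tail y.tail (addF (x.headD false, y.headD false, c)).2
      (by rw [List.length_tail]; omega) (by rw [List.length_tail]; omega)
    have h1 := addF_spec (x.headD false) (y.headD false) c
    rw [val_headD_tail x, val_headD_tail y]
    simp only [Poly.bitOp, Poly.val]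
    rw [pow_succ]
    have e : 2 ^ n * 2 * (Poly.bitOp addF n x.tail y.tail
        (addF (x.headD false, y.headD false, c)).2).2.toNat =
        2 * (2 ^ n * (Poly.bitOp addF n x.tail y.tail
        (addF (x.headD false, y.headD false, c)).2).2.toNat) := by ring
    rw [e]
    omega

theorem length_bitOp (f : Bool × Bool × Bool → Bool × Bool) : ∀ (n : ℕ) (x y : List Bool)
    (c : Bool), (Poly.bitOp f n x y c).1.length = n := by
  intro n
  induction n with
  | zero => intro x y c; rfl
  | succ n ih => intro x y c; simp [Poly.bitOp, ih]

/-- **Addition.** -/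
theorem PolyTime.add {f g : α → ℕ} (hf : PolyTime f) (hg : PolyTime g) :
    PolyTime (fun a => f a + g a) := by
  refine (PolyTime.val (PolyTime.bitOp addF false hf.bits hg.bits).fst).congr (fun a => ?_)
  have h1 := val_encodeNat (f a)
  have h2 := val_encodeNat (g a)
  have h3 := val_lt (Computability.encodeNat (f a))
  have h4 := val_lt (Computability.encodeNat (g a))
  generalize Computability.encodeNat (f a) = x at *
  generalize Computability.encodeNat (g a) = y at *
  have h := bitOp_add (x.length + y.length + 1) x y false (by omega) (by omega)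
  rw [h1, h2] at h
  rw [h1] at h3
  rw [h2] at h4
  have h5 : f a + g a < 2 ^ (x.length + y.length + 1) := by
    have e1 : 2 ^ x.length ≤ 2 ^ (x.length + y.length) := Nat.pow_le_pow_right (by omega) (by omega)
    have e2 : 2 ^ y.length ≤ 2 ^ (x.length + y.length) := Nat.pow_le_pow_right (by omega) (by omega)
    rw [pow_succ]
    omega
  cases hc : (Poly.bitOp addF (x.length + y.length + 1) x y false).2
  · rw [hc] at h
    simpa using h
  · rw [hc] at h
    simp at h
    omega

/-- subtraction of digits -/
def subF (z : Bool × Bool × Bool) : Bool × Bool :=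
  (Bool.xor (Bool.xor z.1 z.2.1) z.2.2, bif z.1 then z.2.1 && z.2.2 else z.2.1 || z.2.2)

theorem subF_spec (a b c : Bool) : (subF (a, b, c)).1.toNat + b.toNat + c.toNat =
    a.toNat + 2 * (subF (a, b, c)).2.toNat := by
  cases a <;> cases b <;> cases c <;> rfl

theorem bitOp_sub : ∀ (n : ℕ) (x y : List Bool) (c : Bool), x.length ≤ n → y.length ≤ n →
    Poly.val (Poly.bitOp subF n x y c).1 + Poly.val y + c.toNat =
      Poly.val x + 2 ^ n * (Poly.bitOp subF n x y c).2.toNat := by
  intro n
  induction n with
  | zero =>
    intro x y c hx hy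
    have h1 : x = [] := List.length_eq_zero_iff.1 (by omega)
    have h2 : y = [] := List.length_eq_zero_iff.1 (by omega)
    subst h1 h2
    simp [Poly.bitOp, Poly.val]
  | succ n ih =>
    intro x y c hx hy
    have h := ih x.tail y.tail (subF (x.headD false, y.headD false, c)).2
      (by rw [List.length_tail]; omega) (by rw [List.length_tail]; omega)
    have h1 := subF_spec (x.headD false) (y.headD false) c
    rw [val_headD_tail x, val_headD_tail y]
    simp only [Poly.bitOp, Poly.val]
    rw [pow_succ]
    have e : 2 ^ n * 2 * (Poly.bitOp subF n x.tail y.tail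
        (subF (x.headD false, y.headD false, c)).2).2.toNat =
        2 * (2 ^ n * (Poly.bitOp subF n x.tail y.tail
        (subF (x.headD false, y.headD false, c)).2).2.toNat) := by ring
    rw [e]
    omega

/-- borrow of the subtraction -/
theorem bitOp_sub_borrow (n : ℕ) (x y : List Bool) (hx : x.length ≤ n) (hy : y.length ≤ n) :
    (Poly.bitOp subF n x y false).2 = decide (Poly.val x < Poly.val y) := by
  have h := bitOp_sub n x y false hx hy
  have h1 := val_lt (Poly.bitOp subF n x y false).1
  rw [length_bitOp] at h1
  cases hc : (Poly.bitOp subF n x y false).2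
  · rw [hc] at h
    simp at h
    symm
    rw [decide_eq_false_iff_not]
    omega
  · rw [hc] at h
    simp at h
    symm
    rw [decide_eq_true_iff]
    omega

/-- **Comparison.** -/
theorem PolyTime.lt {f g : α → ℕ} (hf : PolyTime f) (hg : PolyTime g) :
    PolyTime (fun a => decide (f a < g a)) := by
  refine (PolyTime.bitOp subF false hf.bits hg.bits).snd.congr (fun a => ?_)
  rw [bitOp_sub_borrow _ _ _ (by omega) (by omega), val_encodeNat, val_encodeNat]

theorem PolyTime.le {f g : α → ℕ} (hf : PolyTime f) (hg : PolyTime g) :
    PolyTime (fun a => decide (f a ≤ g a)) :=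
  (PolyTime.lt hg hf).not.congr (fun a => by
    rw [Bool.eq_iff_iff]; simp)

/-- **Truncated subtraction.** -/
theorem PolyTime.sub {f g : α → ℕ} (hf : PolyTime f) (hg : PolyTime g) :
    PolyTime (fun a => f a - g a) := by
  refine (PolyTime.cond (PolyTime.lt hf hg) (PolyTime.const 0)
    (PolyTime.val (PolyTime.bitOp subF false hf.bits hg.bits).fst)).congr (fun a => ?_)
  by_cases hlt : f a < g a
  · simp only [hlt, decide_true, cond_true]
    omega
  · simp only [hlt, decide_false, cond_false]
    have h1 := val_encodeNat (f a)
    have h2 := val_encodeNat (g a)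
    generalize Computability.encodeNat (f a) = x at *
    generalize Computability.encodeNat (g a) = y at *
    have h := bitOp_sub (x.length + y.length + 1) x y false (by omega) (by omega)
    have h3 := bitOp_sub_borrow (x.length + y.length + 1) x y (by omega) (by omega)
    rw [h1, h2] at h h3
    rw [h3] at h
    simp [hlt] at h
    omega

theorem PolyTime.succ {f : α → ℕ} (hf : PolyTime f) : PolyTime (fun a => f a + 1) :=
  hf.add (PolyTime.const 1)

theorem PolyTime.pred {f : α → ℕ} (hf : PolyTime f) : PolyTime (fun a => f a - 1) :=
  hf.sub (PolyTime.const 1)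

theorem PolyTime.max {f g : α → ℕ} (hf : PolyTime f) (hg : PolyTime g) :
    PolyTime (fun a => Max.max (f a) (g a)) :=
  (PolyTime.cond (PolyTime.le hf hg) hg hf).congr (fun a => by
    by_cases h : f a ≤ g a
    · simp [h]
    · simp only [h, decide_false, cond_false]; omega)

theorem PolyTime.min {f g : α → ℕ} (hf : PolyTime f) (hg : PolyTime g) :
    PolyTime (fun a => Min.min (f a) (g a)) :=
  (PolyTime.cond (PolyTime.le hf hg) hf hg).congr (fun a => by
    by_cases h : f a ≤ g a
    · simp [h]
    · simp only [h, decide_false, cond_false]; omega)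

/-! ### multiplication -/

theorem mul_foldl : ∀ (l : List Bool) (acc y : ℕ),
    l.foldl (fun (s : ℕ × ℕ) b => ((bif b then s.1 + s.2 else s.1), s.2 + s.2)) (acc, y) =
      (acc + Poly.val l * y, 2 ^ l.length * y) := by
  intro l
  induction l with
  | nil => intro acc y; simp [Poly.val]
  | cons b l ih =>
    intro acc y
    rw [List.foldl_cons, ih]
    simp only [Poly.val, List.length_cons, pow_succ]
    cases b
    · simp only [cond_false, Bool.toNat_false]
      exact Prod.ext (by simp only; ring) (by simp only; ring)
    · simp only [cond_true, Bool.toNat_true]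
      exact Prod.ext (by simp only; ring) (by simp only; ring)

theorem size_mul_le (m n : ℕ) : size (m * n) ≤ size m + size n := by
  rw [size_nat (m * n), Nat.size_le, pow_add]
  rcases Nat.eq_zero_or_pos n with h | h
  · subst h; simp
  · exact Nat.mul_lt_mul'' (lt_two_pow_size m) (lt_two_pow_size n)

theorem size_add_le (m n : ℕ) : size (m + n) ≤ size m + size n + 1 := by
  rw [size_nat (m + n), Nat.size_le, pow_succ]
  have h1 := lt_two_pow_size m
  have h2 := lt_two_pow_size n
  have e1 : 2 ^ size m ≤ 2 ^ (size m + size n) := Nat.pow_le_pow_right (by omega) (by omega)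
  have e2 : 2 ^ size n ≤ 2 ^ (size m + size n) := Nat.pow_le_pow_right (by omega) (by omega)
  omega

theorem size_two_pow_mul_le (k n : ℕ) : size (2 ^ k * n) ≤ k + size n := by
  rw [size_nat (2 ^ k * n), Nat.size_le, pow_add]
  exact Nat.mul_lt_mul_of_pos_left (lt_two_pow_size n) (by positivity)

/-- **Multiplication.** -/
theorem PolyTime.mul {f g : α → ℕ} (hf : PolyTime f) (hg : PolyTime g) :
    PolyTime (fun a => f a * g a) := by
  have hw : PolyTime (fun w : α × (ℕ × ℕ) × Bool => w) := PolyTime.id
  have hstep : PolyTime (fun w : α × (ℕ × ℕ) × Bool =>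
      (((bif w.2.2 then w.2.1.1 + w.2.1.2 else w.2.1.1), w.2.1.2 + w.2.1.2) : ℕ × ℕ)) :=
    (PolyTime.cond hw.snd.snd (hw.snd.fst.fst.add hw.snd.fst.snd) hw.snd.fst.fst).pair
      (hw.snd.fst.snd.add hw.snd.fst.snd)
  obtain ⟨bf, hbf, hbfs⟩ := hf.bits.size_le
  obtain ⟨bg, hbg, hbgs⟩ := hg.size_le
  have h1 := PolyTime.foldl (l := fun a => Computability.encodeNat (f a))
    (f := fun a => ((0 : ℕ), g a))
    (h := fun w : α × (ℕ × ℕ) × Bool =>
      (((bif w.2.2 then w.2.1.1 + w.2.1.2 else w.2.1.1), w.2.1.2 + w.2.1.2) : ℕ × ℕ)) hf.bits
    ((PolyTime.const 0).pair hg) hstep (by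
      refine ⟨fun n => 2 * (bf n + bg n) + 1 + (bf n + bg n),
        (((PB.const 2).mul (hbf.add hbg)).add (PB.const 1)).add (hbf.add hbg), ?_⟩
      intro a i hi
      simp only
      rw [mul_foldl, size_pair, zero_add]
      set l := (Computability.encodeNat (f a)).take i with hl
      have h2 : l.length ≤ bf (size a) := by
        have h3 := length_le_size (Computability.encodeNat (f a))
        have h4 := hbfs a
        have h5 : l.length ≤ (Computability.encodeNat (f a)).length := by
          rw [hl, List.length_take]; omega
        exact h5.trans (h3.trans h4)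
      have h3 : size (Poly.val l * g a) ≤ l.length + size (g a) := by
        refine (size_mul_le _ _).trans (Nat.add_le_add_right ?_ _)
        rw [size_nat, Nat.size_le]
        exact val_lt l
      have h4 := size_two_pow_mul_le l.length (g a)
      have h5 := hbgs a
      omega)
  refine h1.fst.congr (fun a => ?_)
  simp only
  rw [mul_foldl, val_encodeNat, zero_add]

/-! ### division -/

theorem divmod_step (d v : ℕ) (hd : 0 < d) (b : Bool) :
    (let r := 2 * (v % d) + b.toNat
     (bif decide (d ≤ r) then (2 * (v / d) + 1, r - d) else (2 * (v / d), r))) =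
      ((2 * v + b.toNat) / d, (2 * v + b.toNat) % d) := by
  simp only
  have h1 := Nat.div_add_mod v d
  have h2 := Nat.mod_lt v hd
  have hb : b.toNat ≤ 1 := by cases b <;> simp
  set q := v / d
  set r := v % d
  have h3 : 2 * v + b.toNat = d * (2 * q) + (2 * r + b.toNat) := by
    rw [← h1]; ring
  by_cases h : d ≤ 2 * r + b.toNat
  · simp only [h, decide_true, cond_true]
    have h4 : 2 * v + b.toNat = d * (2 * q + 1) + (2 * r + b.toNat - d) := by
      rw [h3]
      have : d * (2 * q + 1) = d * (2 * q) + d := by ring
      omega
    have h5 : 2 * r + b.toNat - d < d := by omega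
    rw [h4, Nat.mul_add_div hd, Nat.div_eq_of_lt h5, Nat.mul_add_mod, Nat.mod_eq_of_lt h5, add_zero]
  · simp only [h, decide_false, cond_false]
    push Not at h
    rw [h3, Nat.mul_add_div hd, Nat.div_eq_of_lt h, Nat.mul_add_mod, Nat.mod_eq_of_lt h, add_zero]

/-- division step on (quotient, remainder) -/
def divStep (d : ℕ) (s : ℕ × ℕ) (b : Bool) : ℕ × ℕ :=
  bif decide (d ≤ 2 * s.2 + b.toNat) then (2 * s.1 + 1, 2 * s.2 + b.toNat - d)
  else (2 * s.1, 2 * s.2 + b.toNat)

/-- big-endian value -/
def valBE (l : List Bool) (v : ℕ) : ℕ := l.foldl (fun v b => 2 * v + b.toNat) v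

theorem div_foldl (d : ℕ) (hd : 0 < d) : ∀ (l : List Bool) (v : ℕ),
    l.foldl (divStep d) (v / d, v % d) = (valBE l v / d, valBE l v % d) := by
  intro l
  induction l with
  | nil => intro v; rfl
  | cons b l ih =>
    intro v
    rw [List.foldl_cons]
    have : divStep d (v / d, v % d) b = ((2 * v + b.toNat) / d, (2 * v + b.toNat) % d) :=
      divmod_step d v hd b
    rw [this, ih]
    rfl

theorem valBE_append (l l' : List Bool) (v : ℕ) : valBE (l ++ l') v = valBE l' (valBE l v) := by
  simp [valBE]

theorem valBE_reverse (l : List Bool) : valBE l.reverse 0 = Poly.val l := by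
  induction l with
  | nil => rfl
  | cons b l ih =>
    rw [List.reverse_cons, valBE_append, ih]
    simp only [valBE, List.foldl_cons, List.foldl_nil, Poly.val]
    omega

theorem valBE_lt (l : List Bool) : valBE l 0 < 2 ^ l.length := by
  have := valBE_reverse l.reverse
  rw [List.reverse_reverse] at this
  rw [this]
  have h := val_lt l.reverse
  rwa [List.length_reverse] at h

theorem PolyTime.toNat {f : α → Bool} (hf : PolyTime f) : PolyTime (fun a => (f a).toNat) :=
  (PolyTime.boolFun (fun b => b.toNat)).comp hf

/-- quotient and remainder together, for positive divisors -/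
theorem PolyTime.divMod {f g : α → ℕ} (hf : PolyTime f) (hg : PolyTime g) :
    PolyTime (fun a => (f a / g a, f a % g a)) := by
  have hw : PolyTime (fun w : α × (ℕ × ℕ) × Bool => w) := PolyTime.id
  have h2s : PolyTime (fun w : α × (ℕ × ℕ) × Bool => 2 * w.2.1.2 + w.2.2.toNat) :=
    ((PolyTime.const 2).mul hw.snd.fst.snd).add hw.snd.snd.toNat
  -- the divisor, made positive
  have hg1 : PolyTime (fun a => Max.max (g a) 1) := hg.max (PolyTime.const 1)
  have hgw : PolyTime (fun w : α × (ℕ × ℕ) × Bool => Max.max (g w.1) 1) := hg1.comp hw.fst
  have h2q : PolyTime (fun w : α × (ℕ × ℕ) × Bool => 2 * w.2.1.1) :=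
    (PolyTime.const 2).mul hw.snd.fst.fst
  have hstep : PolyTime (fun w : α × (ℕ × ℕ) × Bool => divStep (Max.max (g w.1) 1) w.2.1 w.2.2) :=
    PolyTime.cond (PolyTime.le hgw h2s) (h2q.succ.pair (h2s.sub hgw)) (h2q.pair h2s)
  obtain ⟨bf, hbf, hbfs⟩ := hf.bits.size_le
  have key : ∀ (a : α) (l : List Bool), l.foldl (divStep (Max.max (g a) 1)) (0, 0) =
      (valBE l 0 / (Max.max (g a) 1), valBE l 0 % (Max.max (g a) 1)) := by
    intro a l
    have := div_foldl (Max.max (g a) 1) (by omega) l 0
    simpa using this
  have h1 := PolyTime.foldl (l := fun a => (Computability.encodeNat (f a)).reverse)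
    (f := fun _ => ((0 : ℕ), (0 : ℕ)))
    (h := fun w : α × (ℕ × ℕ) × Bool => divStep (Max.max (g w.1) 1) w.2.1 w.2.2) hf.bits.reverse
    (PolyTime.const _) hstep (by
      refine ⟨fun n => 2 * bf n + 1 + bf n,
        (((PB.const 2).mul hbf).add (PB.const 1)).add hbf, ?_⟩
      intro a i hi
      simp only
      rw [key a, size_pair]
      set l := (Computability.encodeNat (f a)).reverse.take i with hl
      have h2 : l.length ≤ bf (size a) := by
        have h3 := length_le_size (Computability.encodeNat (f a))
        have h4 := hbfs a
        have h5 : l.length ≤ (Computability.encodeNat (f a)).length := by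
          rw [hl, List.length_take, List.length_reverse]; omega
        exact h5.trans (h3.trans h4)
      have h3 : size (valBE l 0) ≤ l.length := by
        rw [size_nat, Nat.size_le]; exact valBE_lt l
      have h4 : size (valBE l 0 / (Max.max (g a) 1)) ≤ size (valBE l 0) :=
        size_nat_mono (Nat.div_le_self _ _)
      have h5 : size (valBE l 0 % (Max.max (g a) 1)) ≤ size (valBE l 0) :=
        size_nat_mono (Nat.mod_le _ _)
      omega)
  have h2 := PolyTime.cond (PolyTime.eq hg (PolyTime.const 0)) ((PolyTime.const 0).pair hf) h1
  refine h2.congr (fun a => ?_)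
  simp only
  rw [key a, valBE_reverse, val_encodeNat]
  by_cases h : g a = 0
  · simp [h]
  · have : Max.max (g a) 1 = g a := by omega
    simp [h, this]

theorem PolyTime.div {f g : α → ℕ} (hf : PolyTime f) (hg : PolyTime g) :
    PolyTime (fun a => f a / g a) := (PolyTime.divMod hf hg).fst

theorem PolyTime.mod {f g : α → ℕ} (hf : PolyTime f) (hg : PolyTime g) :
    PolyTime (fun a => f a % g a) := (PolyTime.divMod hf hg).snd

theorem PolyTime.dvd {f g : α → ℕ} (hf : PolyTime f) (hg : PolyTime g) :
    PolyTime (fun a => decide (f a ∣ g a)) :=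
  (PolyTime.eq (hg.mod hf) (PolyTime.const 0)).congr (fun a => by
    rw [Bool.eq_iff_iff]; simp [Nat.dvd_iff_mod_eq_zero])

/-! ### lengths, sums, ranges, indexing -/

theorem PolyTime.length {l : α → List β} (hl : PolyTime l) : PolyTime (fun a => (l a).length) := by
  have hw : PolyTime (fun w : α × ℕ × β => w) := PolyTime.id
  obtain ⟨bl, hbl, hbls⟩ := hl.size_le
  have key : ∀ (l : List β) (n : ℕ), l.foldl (fun s _ => s + 1) n = n + l.length := by
    intro l
    induction l with
    | nil => intro n; rfl
    | cons x l ih => intro n; rw [List.foldl_cons, ih, List.length_cons]; omega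
  have h1 := PolyTime.foldl (l := l) (f := fun _ => (0 : ℕ))
    (h := fun w : α × ℕ × β => w.2.1 + 1) hl (PolyTime.const _) hw.snd.fst.succ (by
      refine ⟨bl, hbl, ?_⟩
      intro a i hi
      simp only
      rw [key, zero_add, List.length_take]
      refine (size_nat_le_self _).trans ?_
      have h3 := length_le_size (l a)
      have h4 := hbls a
      omega)
  refine h1.congr (fun a => ?_)
  simp only
  rw [key, zero_add]

theorem size_sum_le (l : List ℕ) : size l.sum ≤ size l := by
  induction l with
  | nil => simp [size_nat]
  | cons n l ih =>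
    rw [List.sum_cons, size_cons]
    have := size_add_le n l.sum
    omega

theorem PolyTime.sum {l : α → List ℕ} (hl : PolyTime l) : PolyTime (fun a => (l a).sum) := by
  have hw : PolyTime (fun w : α × ℕ × ℕ => w) := PolyTime.id
  obtain ⟨bl, hbl, hbls⟩ := hl.size_le
  have key : ∀ (l : List ℕ) (n : ℕ), l.foldl (fun s x => s + x) n = n + l.sum := by
    intro l
    induction l with
    | nil => intro n; rfl
    | cons x l ih => intro n; rw [List.foldl_cons, ih, List.sum_cons]; omega
  have h1 := PolyTime.foldl (l := l) (f := fun _ => (0 : ℕ))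
    (h := fun w : α × ℕ × ℕ => w.2.1 + w.2.2) hl (PolyTime.const _)
    (hw.snd.fst.add hw.snd.snd) (by
      refine ⟨bl, hbl, ?_⟩
      intro a i hi
      simp only
      rw [key, zero_add]
      exact (size_sum_le _).trans ((size_take_le _ _).trans (hbls a)))
  refine h1.congr (fun a => ?_)
  simp only
  rw [key, zero_add]

/-- a unary copy of the size of the input -/
theorem PolyTime.unarySize : PolyTime (fun a : α => List.replicate (size a) ()) := by
  have h1 : PolyTime (fun a : α => strToList (toStr a)) := PolyTime.strToList'.comp PolyTime.toStr'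
  refine (h1.map (g := fun _ => ()) (PolyTime.const ())).congr (fun a => ?_)
  rw [List.map_const']
  rfl

theorem PolyTime.unaryMul {u v : α → List Unit} (hu : PolyTime u) (hv : PolyTime v) :
    PolyTime (fun a => List.replicate ((u a).length * (v a).length) ()) := by
  have hw : PolyTime (fun w : α × Unit => w) := PolyTime.id
  refine (PolyTime.flatMap hu (g := fun w => v w.1) (hv.comp hw.fst)).congr (fun a => ?_)
  apply List.ext_getElem
  · simp [List.length_flatMap]
  · intro i _ _; rfl

/-- unary strings of polynomial length -/
theorem PolyTime.unaryPoly (p : Polynomial ℕ) :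
    PolyTime (fun a : α => List.replicate (p.eval (size a)) ()) := by
  induction p using Polynomial.induction_on' with
  | add p q hp hq =>
    refine (hp.append hq).congr (fun a => ?_)
    rw [Polynomial.eval_add, List.replicate_append_replicate]
  | monomial n c =>
    induction n with
    | zero =>
      refine (PolyTime.const (List.replicate c ())).congr (fun a => ?_)
      simp
    | succ n ih =>
      refine (PolyTime.unaryMul ih PolyTime.unarySize).congr (fun a => ?_)
      simp only [List.length_replicate, Polynomial.eval_monomial]
      congr 1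
      ring

/-- unary string of length `n a`, when `n a` is polynomially bounded -/
theorem PolyTime.replicateUnit {n : α → ℕ} (hn : PolyTime n)
    (bd : ∃ b, PB b ∧ ∀ a, n a ≤ b (size a)) : PolyTime (fun a => List.replicate (n a) ()) := by
  obtain ⟨b, ⟨p, hp⟩, hb⟩ := bd
  have hw : PolyTime (fun w : α × (ℕ × List Unit) × Unit => w) := PolyTime.id
  have hstep : PolyTime (fun w : α × (ℕ × List Unit) × Unit =>
      bif decide (w.2.1.1 < n w.1) then (w.2.1.1 + 1, () :: w.2.1.2) else w.2.1) :=
    PolyTime.cond (PolyTime.lt hw.snd.fst.fst (hn.comp hw.fst))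
      (hw.snd.fst.fst.succ.pair ((PolyTime.const ()).cons hw.snd.fst.snd)) hw.snd.fst
  have key : ∀ (a : α) (m : ℕ) , (List.replicate m ()).foldl (fun (s : ℕ × List Unit) _ =>
      bif decide (s.1 < n a) then (s.1 + 1, () :: s.2) else s) (0, []) =
      (Min.min m (n a), List.replicate (Min.min m (n a)) ()) := by
    intro a m
    induction m with
    | zero => simp
    | succ m ih =>
      rw [List.replicate_succ', List.foldl_append, ih, List.foldl_cons, List.foldl_nil]
      simp only
      by_cases h : Min.min m (n a) < n a
      · simp only [h, decide_true, cond_true]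
        have h1 : Min.min (m + 1) (n a) = Min.min m (n a) + 1 := by omega
        rw [h1, List.replicate_succ]
      · simp only [h, decide_false, cond_false]
        have h1 : Min.min (m + 1) (n a) = Min.min m (n a) := by omega
        rw [h1]
  have h1 := PolyTime.foldl (l := fun a : α => List.replicate (p.eval (size a)) ())
    (f := fun _ => ((0 : ℕ), ([] : List Unit)))
    (h := fun w : α × (ℕ × List Unit) × Unit =>
      bif decide (w.2.1.1 < n w.1) then (w.2.1.1 + 1, () :: w.2.1.2) else w.2.1)
    (PolyTime.unaryPoly p) (PolyTime.const _) hstep (by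
      refine ⟨fun m => 2 * p.eval m + 1 + p.eval m,
        (((PB.const 2).mul (PB.eval p)).add (PB.const 1)).add (PB.eval p), ?_⟩
      intro a i hi
      simp only [List.length_replicate] at hi
      simp only
      rw [List.take_replicate, key a, size_pair]
      have h2 := size_nat_le_self (Min.min (Min.min i (p.eval (size a))) (n a))
      have h3 := size_list_le (c := 0) (List.replicate (Min.min (Min.min i (p.eval (size a))) (n a)) ())
        (fun x _ => by rw [size_unit])
      rw [List.length_replicate] at h3
      omega)
  refine h1.snd.congr (fun a => ?_)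
  simp only
  rw [key a]
  have h2 := hb a
  have h3 := hp (size a)
  have : Min.min (Polynomial.eval (size a) p) (n a) = n a := by omega
  rw [this]

/-- **Recursion on a polynomially bounded counter**, with the index available. -/
theorem PolyTime.rangeFold {n : α → ℕ} {f : α → σ} {h : α × σ × ℕ → σ} (hn : PolyTime n)
    (hnb : ∃ b, PB b ∧ ∀ a, n a ≤ b (size a)) (hf : PolyTime f) (hh : PolyTime h)
    (bd : ∃ b, PB b ∧ ∀ a i, i ≤ n a →
      size ((List.range i).foldl (fun s x => h (a, s, x)) (f a)) ≤ b (size a)) :
    PolyTime (fun a => (List.range (n a)).foldl (fun s x => h (a, s, x)) (f a)) := by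
  obtain ⟨b, hb, hbd⟩ := bd
  obtain ⟨c, hc, hcd⟩ := hnb
  have hw : PolyTime (fun w : α × (ℕ × σ) × Unit => w) := PolyTime.id
  have hstep : PolyTime (fun w : α × (ℕ × σ) × Unit =>
      (w.2.1.1 + 1, h (w.1, w.2.1.2, w.2.1.1))) :=
    hw.snd.fst.fst.succ.pair (hh.comp (hw.fst.pair (hw.snd.fst.snd.pair hw.snd.fst.fst)))
  have key : ∀ (a : α) (m : ℕ), (List.replicate m ()).foldl (fun (s : ℕ × σ) _ =>
      (s.1 + 1, h (a, s.2, s.1))) (0, f a) =
      (m, (List.range m).foldl (fun s x => h (a, s, x)) (f a)) := by
    intro a m
    induction m with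
    | zero => simp
    | succ m ih =>
      rw [List.replicate_succ', List.foldl_append, ih, List.foldl_cons, List.foldl_nil,
        List.range_succ, List.foldl_append, List.foldl_cons, List.foldl_nil]
  have h1 := PolyTime.foldl (l := fun a : α => List.replicate (n a) ())
    (f := fun a => ((0 : ℕ), f a))
    (h := fun w : α × (ℕ × σ) × Unit => (w.2.1.1 + 1, h (w.1, w.2.1.2, w.2.1.1)))
    (PolyTime.replicateUnit hn ⟨c, hc, hcd⟩) ((PolyTime.const 0).pair hf) hstep (by
      refine ⟨fun m => 2 * c m + 1 + b m,
        (((PB.const 2).mul hc).add (PB.const 1)).add hb, ?_⟩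
      intro a i hi
      simp only [List.length_replicate] at hi
      simp only
      rw [List.take_replicate, key a, size_pair]
      have h0 : Min.min i (n a) = i := by omega
      rw [h0]
      have h2 := size_nat_le_self i
      have h3 := hbd a i hi
      have h4 := hcd a
      omega)
  refine h1.snd.congr (fun a => ?_)
  simp only
  rw [key a]

theorem PolyTime.range {n : α → ℕ} (hn : PolyTime n)
    (bd : ∃ b, PB b ∧ ∀ a, n a ≤ b (size a)) : PolyTime (fun a => List.range (n a)) := by
  have hw : PolyTime (fun w : α × List ℕ × ℕ => w) := PolyTime.id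
  obtain ⟨b, hb, hbd⟩ := bd
  have key : ∀ m, (List.range m).foldl (fun s x => x :: s) [] = (List.range m).reverse := by
    intro m
    rw [List.foldl_flip_cons_eq_append', List.append_nil]
  have h1 := PolyTime.rangeFold (f := fun _ => ([] : List ℕ))
    (h := fun w : α × List ℕ × ℕ => w.2.2 :: w.2.1) hn ⟨b, hb, hbd⟩ (PolyTime.const _)
    (hw.snd.snd.cons hw.snd.fst) (by
      refine ⟨fun m => b m * (2 * b m + 1), hb.mul (((PB.const 2).mul hb).add (PB.const 1)), ?_⟩
      intro a i hi
      simp only
      rw [key, size_reverse]
      have h2 := size_list_le (c := b (size a)) (List.range i) (fun x hx => by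
        rw [List.mem_range] at hx
        have := hbd a
        exact (size_nat_le_self x).trans (by omega))
      rw [List.length_range] at h2
      have h3 := hbd a
      exact h2.trans (Nat.mul_le_mul_right _ (hi.trans h3)))
  refine h1.reverse.congr (fun a => ?_)
  simp only
  rw [key, List.reverse_reverse]

theorem PolyTime.zipIdx {l : α → List β} (hl : PolyTime l) : PolyTime (fun a => (l a).zipIdx) := by
  have hw : PolyTime (fun w : α × (ℕ × List (β × ℕ)) × β => w) := PolyTime.id
  have key : ∀ (l : List β) (k : ℕ) (out : List (β × ℕ)),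
      l.foldl (fun (s : ℕ × List (β × ℕ)) x => (s.1 + 1, (x, s.1) :: s.2)) (k, out) =
      (k + l.length, (l.zipIdx k).reverse ++ out) := by
    intro l
    induction l with
    | nil => intro k out; simp
    | cons x l ih =>
      intro k out
      rw [List.foldl_cons, ih]
      simp only [List.length_cons, List.zipIdx_cons, List.reverse_cons, List.append_assoc,
        List.singleton_append]
      refine Prod.ext ?_ rfl
      simp only
      omega
  obtain ⟨bl, hbl, hbls⟩ := hl.size_le
  have h1 := PolyTime.foldl (l := l) (f := fun _ => ((0 : ℕ), ([] : List (β × ℕ))))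
    (h := fun w : α × (ℕ × List (β × ℕ)) × β => (w.2.1.1 + 1, (w.2.2, w.2.1.1) :: w.2.1.2)) hl
    (PolyTime.const _) (hw.snd.fst.fst.succ.pair ((hw.snd.snd.pair hw.snd.fst.fst).cons
      hw.snd.fst.snd)) (by
      refine ⟨fun m => 2 * bl m + 1 + bl m * (2 * (2 * bl m + 1 + bl m) + 1),
        (((PB.const 2).mul hbl).add (PB.const 1)).add (hbl.mul (((PB.const 2).mul
          ((((PB.const 2).mul hbl).add (PB.const 1)).add hbl)).add (PB.const 1))), ?_⟩
      intro a i hi
      simp only
      rw [key, size_pair, List.append_nil, size_reverse, zero_add]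
      have hlen : ((l a).take i).length ≤ bl (size a) := by
        rw [List.length_take]
        exact (Nat.min_le_right _ _).trans ((length_le_size (l a)).trans (hbls a))
      have h2 := size_nat_le_self ((l a).take i).length
      have h3 := size_list_le (c := 2 * bl (size a) + 1 + bl (size a)) (((l a).take i).zipIdx 0)
        (fun z hz => by
          obtain ⟨x, j⟩ := z
          rw [size_pair]
          have hx := List.fst_mem_of_mem_zipIdx hz
          have hj := List.snd_lt_of_mem_zipIdx hz
          simp only [zero_add] at hj
          have h4 := size_of_mem hx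
          have h5 := (size_take_le (l a) i).trans (hbls a)
          have h6 := size_nat_le_self j
          simp only [size] at *
          omega)
      rw [List.length_zipIdx] at h3
      have h7 : ((l a).take i).length * (2 * (2 * bl (size a) + 1 + bl (size a)) + 1) ≤
        bl (size a) * (2 * (2 * bl (size a) + 1 + bl (size a)) + 1) :=
        Nat.mul_le_mul_right _ hlen
      simp only [size] at *
      omega)
  refine h1.snd.reverse.congr (fun a => ?_)
  simp only
  rw [key]
  simp

/-- indexing -/
theorem PolyTime.getElem? {l : α → List β} {i : α → ℕ} (hl : PolyTime l) (hi : PolyTime i) :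
    PolyTime (fun a => (l a)[i a]?) := by
  have hw : PolyTime (fun w : α × β × ℕ => w) := PolyTime.id
  have h1 := PolyTime.filter hl.zipIdx (g := fun w : α × β × ℕ => decide (w.2.2 = i w.1))
    (PolyTime.eq hw.snd.snd (hi.comp hw.fst))
  refine (PolyTime.optMap (g := fun z : (β × ℕ) × α => z.1.1) h1.head? PolyTime.fst'.fst).congr
    (fun a => ?_)
  simp only
  have key : ∀ (l : List β) (k i : ℕ), k ≤ i →
      ((l.zipIdx k).filter (fun x => decide (x.2 = i))).head?.map (fun z => z.1) = l[i - k]? := by
    intro l
    induction l with
    | nil => intro k i _; simp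
    | cons x l ih =>
      intro k i hk
      rw [List.zipIdx_cons, List.filter_cons]
      by_cases h : k = i
      · subst h; simp
      · simp only [h, decide_false]
        have h2 := ih (k + 1) i (by omega)
        simp only [Bool.false_eq_true, if_false]
        rw [h2]
        have h3 : i - k = (i - (k + 1)) + 1 := by omega
        rw [h3, List.getElem?_cons_succ]
  have := key (l a) 0 (i a) (Nat.zero_le _)
  simpa using this

theorem PolyTime.list_getD {l : α → List β} {i : α → ℕ} {d : α → β} (hl : PolyTime l)
    (hi : PolyTime i) (hd : PolyTime d) : PolyTime (fun a => (l a).getD (i a) (d a)) :=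
  ((hl.getElem? hi).getD hd).congr (fun a => by rw [List.getD_eq_getElem?_getD])

end Pool.Agent.H80.Poly
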