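import Mathlib
import Pool.Agent.H80.Poly.Nat

set_option autoImplicit false
set_option linter.unusedSectionVars false

/-!
# More closure properties: unary numbers, finite types, further list functions, integers
-/

namespace Pool.Agent.H80.Poly

open Function

variable {α β γ δ σ τ : Type} [BEnc α] [BEnc β] [BEnc γ] [BEnc δ] [BEnc σ] [BEnc τ]

/-- `PolyTime` only depends on the encoding of the output. -/
theorem PolyTime.transfer {f : α → β} {g : α → γ} (hg : PolyTime g)
    (h : ∀ a, enc (f a) = enc (g a)) : PolyTime f := by
  obtain ⟨p, b, hb, hp⟩ := hg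
  refine ⟨p, b, hb, fun a => ?_⟩
  rw [h a]
  exact hp a

/-! ### subtypes -/

instance {P : α → Prop} : BEnc {a : α // P a} :=
  ⟨fun x => enc x.1, fun _ _ h => Subtype.ext (BEnc.enc_inj h)⟩

theorem PolyTime.coe {P : α → Prop} : PolyTime (fun x : {a : α // P a} => (x : α)) :=
  PolyTime.of_enc_eq (fun _ => rfl)

theorem PolyTime.subtypeMk {P : α → Prop} {f : γ → α} (hf : PolyTime f) (h : ∀ c, P (f c)) :
    PolyTime (fun c => (⟨f c, h c⟩ : {a : α // P a})) :=
  hf.transfer (fun _ => rfl)

/-- change of encoding through an injection -/
abbrev BEnc.ofInj {ι : Type} (e : ι → α) (he : Function.Injective e) : BEnc ι :=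
  ⟨fun i => enc (e i), fun _ _ h => he (BEnc.enc_inj h)⟩

/-! ### finite types -/

instance (n : ℕ) : BEnc (Fin n) := ⟨fun i => enc i.val, fun _ _ h => Fin.ext (BEnc.enc_inj h)⟩

theorem PolyTime.finVal {n : ℕ} {f : α → Fin n} (hf : PolyTime f) :
    PolyTime (fun a => (f a).val) :=
  hf.transfer (fun _ => rfl)

theorem PolyTime.finMk {n : ℕ} {f : α → ℕ} (hf : PolyTime f) (h : ∀ a, f a < n) :
    PolyTime (fun a => (⟨f a, h a⟩ : Fin n)) :=
  hf.transfer (fun _ => rfl)

/-- Case split over a finite type, with context. -/
theorem PolyTime.finCase [Finite α] {f : α × γ → β} (h : ∀ a, PolyTime (fun c => f (a, c))) :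
    PolyTime f := by
  classical
  have := Fintype.ofFinite α
  have hw : PolyTime (fun w : α × γ => w) := PolyTime.id
  have key : ∀ l : List α, ∃ g : α × γ → Option β, PolyTime g ∧
      ∀ a c, g (a, c) = if a ∈ l then Option.some (f (a, c)) else none := by
    intro l
    induction l with
    | nil => exact ⟨fun _ => none, PolyTime.const none, fun a c => by simp⟩
    | cons b l ih =>
      obtain ⟨g, hg, hgs⟩ := ih
      refine ⟨fun w => bif decide (w.1 = b) then Option.some (f (b, w.2)) else g w,
        PolyTime.cond (PolyTime.eq hw.fst (PolyTime.const b))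
          (PolyTime.some ((h b).comp hw.snd)) hg, ?_⟩
      intro a c
      by_cases hab : a = b
      · subst hab; simp
      · simp [hab, hgs]
  obtain ⟨g, hg, hgs⟩ := key (Finset.univ.toList : List α)
  rcases isEmpty_or_nonempty (α × γ) with he | ⟨⟨a0, c0⟩⟩
  · exact ⟨Prog.skip, fun _ => 0, PB.const 0, fun x => (he.false x).elim⟩
  · refine (PolyTime.getD hg (PolyTime.const (f (a0, c0)))).congr (fun w => ?_)
    obtain ⟨a, c⟩ := w
    rw [hgs]
    simp

/-- Every function on a finite type is polynomial-time. -/
theorem PolyTime.ofFinite [Finite α] (f : α → β) : PolyTime f := by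
  have h : PolyTime (fun x : α × Unit => f x.1) :=
    PolyTime.finCase (fun a => PolyTime.const (f a))
  exact h.comp (PolyTime.id.pair (PolyTime.const ()))

/-! ### unary numbers -/

/-- natural numbers in unary -/
structure UNat where
  /-- a number, to be written in unary -/
  ofNat ::
  /-- the value of a unary number -/
  toNat : ℕ

instance : BEnc UNat := ⟨fun n => List.replicate n.toNat true, fun m n h => by
  have := congrArg List.length h
  rw [List.length_replicate, List.length_replicate] at this
  cases m; cases n; simp only at this; rw [this]⟩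

@[simp] theorem enc_unat (n : UNat) : enc n = List.replicate n.toNat true := rfl

theorem size_unat (n : UNat) : size n = n.toNat := by
  show (List.replicate n.toNat true).length = n.toNat
  rw [List.length_replicate]

/-- unary from a list of units -/
theorem PolyTime.unatOfUnits : PolyTime (fun l : List Unit => UNat.ofNat l.length) := by
  have h1 : PolyTime (fun l : List Unit => l.map (fun _ => true)) :=
    PolyTime.map (g := fun _ => true) PolyTime.id (PolyTime.const true)
  refine (PolyTime.listToStr'.comp h1).transfer (fun l => ?_)
  show List.replicate l.length true = l.map (fun _ => true)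
  rw [List.map_const']

/-- The length of a list, in unary. -/
theorem PolyTime.lengthU {l : α → List β} (hl : PolyTime l) :
    PolyTime (fun a => UNat.ofNat (l a).length) :=
  (PolyTime.unatOfUnits.comp (hl.map (g := fun _ => ()) (PolyTime.const ()))).congr
    (fun a => by simp)

/-- A unary number as a list of units. -/
theorem PolyTime.unatToUnits {n : α → UNat} (hn : PolyTime n) :
    PolyTime (fun a => List.replicate (n a).toNat ()) := by
  have h1 : PolyTime (fun a => strToList (toStr (n a))) :=
    PolyTime.strToList'.comp (PolyTime.toStr'.comp hn)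
  refine (h1.map (g := fun _ => ()) (PolyTime.const ())).congr (fun a => ?_)
  show (List.replicate (n a).toNat true).map (fun _ => ()) = List.replicate (n a).toNat ()
  rw [List.map_replicate]

/-- unary to binary -/
theorem PolyTime.unatToNat {n : α → UNat} (hn : PolyTime n) : PolyTime (fun a => (n a).toNat) :=
  (PolyTime.length hn.unatToUnits).congr (fun a => by rw [List.length_replicate])

/-- binary to unary, for polynomially bounded values -/
theorem PolyTime.natToUnat {n : α → ℕ} (hn : PolyTime n)
    (bd : ∃ b, PB b ∧ ∀ a, n a ≤ b (size a)) : PolyTime (fun a => UNat.ofNat (n a)) :=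
  (PolyTime.unatOfUnits.comp (PolyTime.replicateUnit hn bd)).congr
    (fun a => by simp)

/-- the value of a unary number is polynomially bounded -/
theorem PolyTime.unat_bd {n : α → UNat} (hn : PolyTime n) :
    ∃ b, PB b ∧ ∀ a, (n a).toNat ≤ b (size a) := by
  obtain ⟨b, hb, h⟩ := hn.size_le
  exact ⟨b, hb, fun a => by have := h a; rwa [size_unat] at this⟩

theorem PolyTime.unatAdd {m n : α → UNat} (hm : PolyTime m) (hn : PolyTime n) :
    PolyTime (fun a => UNat.ofNat ((m a).toNat + (n a).toNat)) := by
  obtain ⟨b, hb, h⟩ := hm.unat_bd
  obtain ⟨c, hc, h'⟩ := hn.unat_bd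
  exact (hm.unatToNat.add hn.unatToNat).natToUnat
    ⟨fun n => b n + c n, hb.add hc, fun a => Nat.add_le_add (h a) (h' a)⟩

theorem PolyTime.unatMul {m n : α → UNat} (hm : PolyTime m) (hn : PolyTime n) :
    PolyTime (fun a => UNat.ofNat ((m a).toNat * (n a).toNat)) := by
  obtain ⟨b, hb, h⟩ := hm.unat_bd
  obtain ⟨c, hc, h'⟩ := hn.unat_bd
  exact (hm.unatToNat.mul hn.unatToNat).natToUnat
    ⟨fun n => b n * c n, hb.mul hc, fun a => Nat.mul_le_mul (h a) (h' a)⟩

/-- evaluation of a polynomial at a unary number -/
theorem PolyTime.unatEval (p : Polynomial ℕ) {n : α → UNat} (hn : PolyTime n) :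
    PolyTime (fun a => UNat.ofNat (p.eval (n a).toNat)) := by
  have h1 : PolyTime (fun n : UNat => UNat.ofNat (List.replicate (p.eval (size n)) ()).length) :=
    (PolyTime.unaryPoly p).lengthU
  refine (h1.comp hn).congr (fun a => ?_)
  rw [List.length_replicate, size_unat]

/-- evaluation of a polynomial at a binary number -/
theorem PolyTime.natEval (p : Polynomial ℕ) {n : α → ℕ} (hn : PolyTime n) :
    PolyTime (fun a => p.eval (n a)) := by
  induction p using Polynomial.induction_on' with
  | add p q hp hq =>
    exact (hp.add hq).congr (fun a => by rw [Polynomial.eval_add])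
  | monomial k c =>
    induction k with
    | zero => exact (PolyTime.const c).congr (fun a => by simp)
    | succ k ih =>
      refine (ih.mul hn).congr (fun a => ?_)
      simp only [Polynomial.eval_monomial]
      ring

/-- powers with fixed exponent -/
theorem PolyTime.pow {f : α → ℕ} (hf : PolyTime f) (k : ℕ) : PolyTime (fun a => f a ^ k) :=
  (PolyTime.natEval (Polynomial.X ^ k) hf).congr (fun a => by simp)

/-- range of a unary number -/
theorem PolyTime.rangeU {n : α → UNat} (hn : PolyTime n) :
    PolyTime (fun a => List.range (n a).toNat) :=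
  PolyTime.range hn.unatToNat hn.unat_bd

/-- the size of the input, in unary -/
theorem PolyTime.sizeU : PolyTime (fun a : α => UNat.ofNat (size a)) :=
  (PolyTime.lengthU (PolyTime.unarySize (α := α))).congr (fun a => by rw [List.length_replicate])

/-! ### more list functions -/

theorem PolyTime.filterMap {l : α → List β} {g : α × β → Option γ} (hl : PolyTime l)
    (hg : PolyTime g) : PolyTime (fun a => (l a).filterMap (fun x => g (a, x))) := by
  have h1 : PolyTime (fun w : α × β => (g w).toList) :=
    (PolyTime.optElim (f := fun _ : α × β => ([] : List γ)) (g := fun z : γ × (α × β) => [z.1])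
      hg (PolyTime.const _) (PolyTime.fst'.cons (PolyTime.const []))).congr
      (fun w => by cases g w <;> rfl)
  refine (PolyTime.flatMap hl h1).congr (fun a => ?_)
  induction l a with
  | nil => rfl
  | cons x l ih =>
    rw [List.flatMap_cons, ih, List.filterMap_cons]
    cases g (a, x) <;> rfl

theorem PolyTime.countP {l : α → List β} {g : α × β → Bool} (hl : PolyTime l) (hg : PolyTime g) :
    PolyTime (fun a => (l a).countP (fun x => g (a, x))) :=
  (PolyTime.length (hl.filter hg)).congr (fun a => by rw [List.countP_eq_length_filter])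

theorem PolyTime.take {l : α → List β} {n : α → ℕ} (hl : PolyTime l) (hn : PolyTime n) :
    PolyTime (fun a => (l a).take (n a)) := by
  have hw : PolyTime (fun w : α × β × ℕ => w) := PolyTime.id
  have h1 := PolyTime.filter hl.zipIdx (g := fun w : α × β × ℕ => decide (w.2.2 < n w.1))
    (PolyTime.lt hw.snd.snd (hn.comp hw.fst))
  refine (h1.map (g := fun w : α × β × ℕ => w.2.1) hw.snd.fst).congr (fun a => ?_)
  have key : ∀ (l : List β) (k n : ℕ), ((l.zipIdx k).filter (fun x => decide (x.2 < n))).map
      (fun x => x.1) = l.take (n - k) := by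
    intro l
    induction l with
    | nil => intro k n; simp
    | cons x l ih =>
      intro k n
      rw [List.zipIdx_cons, List.filter_cons]
      by_cases h : k < n
      · simp only [h, decide_true, if_true, List.map_cons]
        rw [ih, show n - k = (n - (k + 1)) + 1 by omega, List.take_succ_cons]
      · simp only [h, decide_false]
        rw [show n - k = 0 by omega, List.take_zero]
        have := ih (k + 1) n
        rw [show n - (k + 1) = 0 by omega, List.take_zero] at this
        simpa using this
  have := key (l a) 0 (n a)
  simpa using this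

theorem PolyTime.drop {l : α → List β} {n : α → ℕ} (hl : PolyTime l) (hn : PolyTime n) :
    PolyTime (fun a => (l a).drop (n a)) := by
  have hw : PolyTime (fun w : α × β × ℕ => w) := PolyTime.id
  have h1 := PolyTime.filter hl.zipIdx (g := fun w : α × β × ℕ => decide (n w.1 ≤ w.2.2))
    (PolyTime.le (hn.comp hw.fst) hw.snd.snd)
  refine (h1.map (g := fun w : α × β × ℕ => w.2.1) hw.snd.fst).congr (fun a => ?_)
  have key : ∀ (l : List β) (k n : ℕ), ((l.zipIdx k).filter (fun x => decide (n ≤ x.2))).map
      (fun x => x.1) = l.drop (n - k) := by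
    intro l
    induction l with
    | nil => intro k n; simp
    | cons x l ih =>
      intro k n
      rw [List.zipIdx_cons, List.filter_cons]
      by_cases h : n ≤ k
      · simp only [h, decide_true, if_true, List.map_cons]
        rw [ih, show n - k = 0 by omega, show n - (k + 1) = 0 by omega]
        simp
      · simp only [h, decide_false]
        have := ih (k + 1) n
        rw [show n - k = (n - (k + 1)) + 1 by omega, List.drop_succ_cons]
        simpa using this
  have := key (l a) 0 (n a)
  simpa using this

theorem PolyTime.zipWith {l : α → List β} {l' : α → List γ} {g : α × β × γ → δ}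
    (hl : PolyTime l) (hl' : PolyTime l') (hg : PolyTime g) :
    PolyTime (fun a => List.zipWith (fun x y => g (a, x, y)) (l a) (l' a)) := by
  have hw : PolyTime (fun w : α × (β × ℕ) => w) := PolyTime.id
  have h1 := PolyTime.filterMap hl.zipIdx
    (g := fun w : α × (β × ℕ) => ((l' w.1)[w.2.2]?).map (fun y => g (w.1, w.2.1, y)))
    (by
      have hz : PolyTime (fun z : γ × (α × (β × ℕ)) => z) := PolyTime.id
      exact PolyTime.optMap (g := fun z : γ × (α × (β × ℕ)) => g (z.2.1, z.2.2.1, z.1))
        (PolyTime.getElem? (hl'.comp hw.fst) hw.snd.snd)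
        (hg.comp (hz.snd.fst.pair (hz.snd.snd.fst.pair hz.fst))))
  refine h1.congr (fun a => ?_)
  have key : ∀ (l : List β) (k : ℕ) (m : List γ), (l.zipIdx k).filterMap
      (fun x => (m[x.2]?).map (fun y => g (a, x.1, y))) =
      List.zipWith (fun x y => g (a, x, y)) l (m.drop k) := by
    intro l
    induction l with
    | nil => intro k m; simp
    | cons x l ih =>
      intro k m
      rw [List.zipIdx_cons, List.filterMap_cons, ih]
      by_cases h : k < m.length
      · rw [List.getElem?_eq_getElem h, List.drop_eq_getElem_cons h]
        rfl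
      · rw [List.getElem?_eq_none (by omega), List.drop_eq_nil_of_le (by omega),
          List.drop_eq_nil_of_le (by omega)]
        simp
  have := key (l a) 0 (l' a)
  simpa using this

theorem PolyTime.zip {l : α → List β} {l' : α → List γ} (hl : PolyTime l) (hl' : PolyTime l') :
    PolyTime (fun a => (l a).zip (l' a)) :=
  (PolyTime.zipWith (g := fun w : α × β × γ => w.2) hl hl' PolyTime.snd').congr (fun a => rfl)

/-- first index of an element (the length of the list if there is none) -/
theorem PolyTime.findIdx {l : α → List β} {g : α × β → Bool} (hl : PolyTime l) (hg : PolyTime g) :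
    PolyTime (fun a => (l a).findIdx (fun x => g (a, x))) := by
  have hw : PolyTime (fun w : α × β × ℕ => w) := PolyTime.id
  have h1 := PolyTime.filter hl.zipIdx (g := fun w : α × β × ℕ => g (w.1, w.2.1))
    (hg.comp (hw.fst.pair hw.snd.fst))
  have h2 := PolyTime.optMap (g := fun z : (β × ℕ) × α => z.1.2) h1.head? PolyTime.fst'.snd
  refine (h2.getD hl.length).congr (fun a => ?_)
  simp only
  have key : ∀ (l : List β) (k : ℕ), (((l.zipIdx k).filter (fun x => g (a, x.1))).head?.map
      (fun z => z.2)).getD (k + l.length) = k + l.findIdx (fun x => g (a, x)) := by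
    intro l
    induction l with
    | nil => intro k; simp
    | cons x l ih =>
      intro k
      rw [List.zipIdx_cons, List.filter_cons, List.findIdx_cons]
      cases h : g (a, x)
      · have := ih (k + 1)
        simp only [Bool.false_eq_true, if_false, List.length_cons, cond_false]
        rw [show k + (l.length + 1) = k + 1 + l.length by omega, this]
        omega
      · simp
  have := key (l a) 0
  simpa using this

theorem PolyTime.idxOf [DecidableEq β] {l : α → List β} {f : α → β} (hl : PolyTime l)
    (hf : PolyTime f) : PolyTime (fun a => (l a).findIdx (fun x => decide (x = f a))) := by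
  have hw : PolyTime (fun w : α × β => w) := PolyTime.id
  exact PolyTime.findIdx (g := fun w : α × β => decide (w.2 = f w.1)) hl
    (PolyTime.eq hw.snd (hf.comp hw.fst))

theorem PolyTime.replicate {n : α → ℕ} {f : α → β} (hn : PolyTime n)
    (bd : ∃ b, PB b ∧ ∀ a, n a ≤ b (size a)) (hf : PolyTime f) :
    PolyTime (fun a => List.replicate (n a) (f a)) := by
  refine ((PolyTime.replicateUnit hn bd).map (g := fun w : α × Unit => f w.1)
    (hf.comp PolyTime.fst')).congr (fun a => ?_)
  rw [List.map_replicate]

/-- maximum of a list of numbers (`0` for the empty list) -/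
theorem PolyTime.maxList {l : α → List ℕ} (hl : PolyTime l) :
    PolyTime (fun a => (l a).foldl Max.max 0) := by
  have hw : PolyTime (fun w : α × ℕ × ℕ => w) := PolyTime.id
  obtain ⟨bl, hbl, hbls⟩ := hl.size_le
  refine PolyTime.foldl (l := l) (f := fun _ => (0 : ℕ))
    (h := fun w : α × ℕ × ℕ => Max.max w.2.1 w.2.2) hl (PolyTime.const _)
    (hw.snd.fst.max hw.snd.snd) ⟨bl, hbl, ?_⟩
  intro a i hi
  have key : ∀ (l : List ℕ) (n : ℕ), l.foldl Max.max n ≤ n + l.sum := by
    intro l
    induction l with
    | nil => intro n; simp
    | cons x l ih =>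
      intro n
      rw [List.foldl_cons, List.sum_cons]
      have := ih (Max.max n x)
      omega
  have h1 := key ((l a).take i) 0
  rw [zero_add] at h1
  exact (size_nat_mono h1).trans ((size_sum_le _).trans ((size_take_le _ _).trans (hbls a)))

/-- products of a list by a fixed function with values in a small range are omitted; bounded
minimisation over a range -/
theorem PolyTime.findRange {n : α → ℕ} {g : α × ℕ → Bool} (hn : PolyTime n)
    (bd : ∃ b, PB b ∧ ∀ a, n a ≤ b (size a)) (hg : PolyTime g) :
    PolyTime (fun a => (List.range (n a)).findIdx (fun x => g (a, x))) :=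
  PolyTime.findIdx (PolyTime.range hn bd) hg

/-! ### integers -/

/-- integers as sign and absolute value -/
instance : BEnc ℤ := ⟨fun z => enc (decide (z < 0), z.natAbs), fun a b h => by
  have := BEnc.enc_inj h
  rw [Prod.mk.injEq, decide_eq_decide] at this
  omega⟩

theorem enc_int (z : ℤ) : enc z = enc (decide (z < 0), z.natAbs) := rfl

theorem PolyTime.intNeg? {f : α → ℤ} (hf : PolyTime f) :
    PolyTime (fun a => (decide (f a < 0), (f a).natAbs)) :=
  hf.transfer (fun _ => rfl)

theorem PolyTime.natAbs {f : α → ℤ} (hf : PolyTime f) : PolyTime (fun a => (f a).natAbs) :=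
  hf.intNeg?.snd

theorem PolyTime.isNeg {f : α → ℤ} (hf : PolyTime f) : PolyTime (fun a => decide (f a < 0)) :=
  hf.intNeg?.fst

/-- integer with given sign and absolute value -/
def signed (s : Bool) (n : ℕ) : ℤ := bif s then -(n : ℤ) else n

theorem PolyTime.signed {s : α → Bool} {n : α → ℕ} (hs : PolyTime s) (hn : PolyTime n) :
    PolyTime (fun a => signed (s a) (n a)) := by
  have h1 : PolyTime (fun a => (s a && !(decide (n a = 0)), n a)) :=
    (hs.and (PolyTime.eq hn (PolyTime.const 0)).not).pair hn
  refine h1.transfer (fun a => ?_)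
  rw [enc_int]
  congr 1
  unfold Poly.signed
  cases s a
  · simp
  · by_cases h : n a = 0
    · simp [h]
    · simp only [cond_true, h, decide_false, Bool.not_false, Bool.and_true]
      refine Prod.ext ?_ ?_
      · simp only [decide_eq_true_eq]; omega
      · simp

theorem signed_eq (z : ℤ) : signed (decide (z < 0)) z.natAbs = z := by
  unfold signed
  by_cases h : z < 0
  · simp only [h, decide_true, cond_true]; omega
  · simp only [h, decide_false, cond_false]; omega

theorem PolyTime.natCast {f : α → ℕ} (hf : PolyTime f) : PolyTime (fun a => (f a : ℤ)) :=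
  (PolyTime.signed (PolyTime.const false) hf).congr (fun _ => rfl)

theorem PolyTime.intNeg {f : α → ℤ} (hf : PolyTime f) : PolyTime (fun a => -(f a)) :=
  (PolyTime.signed hf.isNeg.not hf.natAbs).congr (fun a => by
    unfold Poly.signed
    by_cases h : f a < 0
    · simp only [h, decide_true, Bool.not_true, cond_false]; omega
    · simp only [h, decide_false, Bool.not_false, cond_true]; omega)

theorem signed_add (s t : Bool) (m n : ℕ) : (bif (s == t) then signed s (m + n)
    else bif decide (n ≤ m) then signed s (m - n) else signed t (n - m)) =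
    signed s m + signed t n := by
  unfold signed
  by_cases h : n ≤ m
  · cases s <;> cases t <;> simp [h] <;> omega
  · cases s <;> cases t <;> simp [h] <;> omega

theorem PolyTime.intAdd {f g : α → ℤ} (hf : PolyTime f) (hg : PolyTime g) :
    PolyTime (fun a => f a + g a) := by
  have h1 : PolyTime (fun a => bif (decide (f a < 0) == decide (g a < 0)) then
      Poly.signed (decide (f a < 0)) ((f a).natAbs + (g a).natAbs)
      else bif decide ((g a).natAbs ≤ (f a).natAbs) then
        Poly.signed (decide (f a < 0)) ((f a).natAbs - (g a).natAbs)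
      else Poly.signed (decide (g a < 0)) ((g a).natAbs - (f a).natAbs)) :=
    PolyTime.cond (hf.isNeg.beqBool hg.isNeg) (PolyTime.signed hf.isNeg (hf.natAbs.add hg.natAbs))
      (PolyTime.cond (PolyTime.le hg.natAbs hf.natAbs)
        (PolyTime.signed hf.isNeg (hf.natAbs.sub hg.natAbs))
        (PolyTime.signed hg.isNeg (hg.natAbs.sub hf.natAbs)))
  refine h1.congr (fun a => ?_)
  rw [signed_add, signed_eq, signed_eq]

theorem PolyTime.intSub {f g : α → ℤ} (hf : PolyTime f) (hg : PolyTime g) :
    PolyTime (fun a => f a - g a) :=
  (hf.intAdd hg.intNeg).congr (fun a => by ring)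

theorem PolyTime.intMul {f g : α → ℤ} (hf : PolyTime f) (hg : PolyTime g) :
    PolyTime (fun a => f a * g a) := by
  refine (PolyTime.signed (hf.isNeg.xor hg.isNeg) (hf.natAbs.mul hg.natAbs)).congr (fun a => ?_)
  have e1 := signed_eq (f a)
  have e2 := signed_eq (g a)
  conv_rhs => rw [← e1, ← e2]
  unfold Poly.signed
  cases decide (f a < 0) <;> cases decide (g a < 0) <;> simp

theorem PolyTime.intLt {f g : α → ℤ} (hf : PolyTime f) (hg : PolyTime g) :
    PolyTime (fun a => decide (f a < g a)) :=
  (hf.intSub hg).isNeg.congr (fun a => by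
    rw [decide_eq_decide]; omega)

theorem PolyTime.intLe {f g : α → ℤ} (hf : PolyTime f) (hg : PolyTime g) :
    PolyTime (fun a => decide (f a ≤ g a)) :=
  (PolyTime.intLt hg hf).not.congr (fun a => by
    rw [Bool.eq_iff_iff]; simp)

end Pool.Agent.H80.Poly
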